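import Mathlib

set_option autoImplicit false

namespace Pool.Agent.H.MP_2bc940_al

open Equiv

section CC
variable {Ω : Type} (q : Perm Ω) (B : Finset Ω) (ℓ : Ω → ℕ)

def Ret : Prop :=
  ∀ x ∈ B, 0 < ℓ x ∧ (q ^ ℓ x) x ∈ B ∧ ∀ j, 0 < j → j < ℓ x → (q ^ j) x ∉ B

variable {q B ℓ}

theorem Ret.uniq (h : Ret q B ℓ) {x y : Ω} (hx : x ∈ B) (hy : y ∈ B) {i j : ℕ} (hij : i ≤ j)
    (e : (q ^ i) x = (q ^ j) y) (hl : j - i < ℓ y) : i = j ∧ x = y := by
  obtain ⟨d, rfl⟩ := Nat.exists_eq_add_of_le hij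
  rw [pow_add, Perm.mul_apply] at e
  have e' := (q ^ i).injective e
  rcases Nat.eq_zero_or_pos d with rfl | hd
  · exact ⟨rfl, e'⟩
  · exact absurd (e' ▸ hx) ((h y hy).2.2 d hd (by omega))

theorem fix_mem {σ : Perm Ω} (hσ : ∀ x ∉ B, σ x = x) {x : Ω} (hx : x ∈ B) : σ x ∈ B := by
  by_contra hn
  exact hn (by rw [σ.injective (hσ _ hn)]; exact hx)

noncomputable def Ret.pi (h : Ret q B ℓ) (σ : Perm Ω) (hσ : ∀ x ∉ B, σ x = x) : Perm B :=
  Equiv.ofBijective (fun x => ⟨σ ((q ^ ℓ x) x), fix_mem hσ (h x x.2).2.1⟩)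
    (Finite.injective_iff_bijective.1 fun x y e => by
      have e' := σ.injective (congrArg Subtype.val e)
      rcases le_total (ℓ x) (ℓ y) with c | c
      · exact Subtype.ext (h.uniq x.2 y.2 c e' (by have := (h x x.2).1; omega)).2
      · exact Subtype.ext (h.uniq y.2 x.2 c e'.symm (by have := (h y y.2).1; omega)).2.symm)

theorem Ret.conj (h : Ret q B ℓ) (σ σ' : Perm Ω) (hσ : ∀ x ∉ B, σ x = x)
    (hσ' : ∀ x ∉ B, σ' x = x) (r : Perm B) (hr : ∀ x, ℓ (r x) = ℓ x)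
    (hc : r * h.pi σ hσ = h.pi σ' hσ' * r) :
    ∃ ρ : Perm Ω, {x | ρ x ≠ x}.Finite ∧ ρ * (σ * q) * ρ⁻¹ = σ' * q := by
  let T := {p : B × ℕ // p.2 < ℓ p.1}
  let ι : T ↪ Ω := ⟨fun p => (q ^ p.1.2) p.1.1, by
    rintro ⟨⟨x, i⟩, hi⟩ ⟨⟨y, j⟩, hj⟩ e
    rcases le_total i j with c | c
    · obtain ⟨h1, h2⟩ := h.uniq x.2 y.2 c e (by simp only at hj; omega)
      exact Subtype.ext (Prod.ext (Subtype.ext h2) h1)
    · obtain ⟨h1, h2⟩ := h.uniq y.2 x.2 c e.symm (by simp only at hi; omega)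
      exact Subtype.ext (Prod.ext (Subtype.ext h2.symm) h1.symm)⟩
  let rT : Perm T := (r.prodCongr (Equiv.refl ℕ)).subtypeEquiv fun p => by simp [hr]
  have k : ∀ (x : B) (j : ℕ), j < ℓ x → rT.viaEmbedding ι ((q ^ j) x) = (q ^ j) (r x) :=
    fun x j hj => rT.viaEmbedding_apply ι ⟨(x, j), hj⟩
  have : Finite T := by
    refine Finite.of_injective (fun p : T => (⟨p.1.1, ⟨p.1.2, p.2⟩⟩ : Σ x : B, Fin (ℓ x))) ?_
    rintro ⟨⟨x, i⟩, hi⟩ ⟨⟨y, j⟩, hj⟩ e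
    simp only [Sigma.mk.injEq] at e
    obtain ⟨rfl, e⟩ := e
    obtain rfl : i = j := by simpa using e
    rfl
  refine ⟨rT.viaEmbedding ι, (Set.finite_range ι).subset fun x hx => ?_, ?_⟩
  · by_contra hn
    exact hx (rT.viaEmbedding_apply_of_notMem ι x hn)
  rw [mul_inv_eq_iff_eq_mul]
  ext p
  simp only [Perm.mul_apply]
  by_cases hp : p ∈ Set.range ι
  · obtain ⟨⟨⟨x, j⟩, hj⟩, rfl⟩ := hp
    change rT.viaEmbedding ι (σ (q ((q ^ j) x))) = σ' (q (rT.viaEmbedding ι ((q ^ j) x)))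
    rw [k x j hj, ← Perm.mul_apply q, ← Perm.mul_apply q, ← pow_succ']
    rcases Nat.lt_or_ge (j + 1) (ℓ x) with c | c
    · rw [hσ _ ((h x x.2).2.2 _ j.succ_pos c), k x _ c,
        hσ' _ ((h _ (r x).2).2.2 _ j.succ_pos (by rwa [hr]))]
    · have e : j + 1 = ℓ x := by simp only at hj; omega
      have h1 := k (h.pi σ hσ x) 0 (h _ (h.pi σ hσ x).2).1
      have h2 : (r (h.pi σ hσ x) : Ω) = h.pi σ' hσ' (r x) := by
        rw [← Perm.mul_apply, hc, Perm.mul_apply]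
      rw [e]
      refine h1.trans (h2.trans ?_)
      rw [← hr x]
      rfl
  · have hq : q p ∉ Set.range ι := by
      rintro ⟨⟨⟨x, j⟩, hj⟩, e⟩
      change (q ^ j) x = q p at e
      apply hp
      cases j with
      | succ j =>
        rw [pow_succ', Perm.mul_apply] at e
        exact ⟨⟨(x, j), by simp only at hj ⊢; omega⟩, q.injective e⟩
      | zero =>
        obtain ⟨y, rfl⟩ := (h.pi 1 fun _ _ => rfl).surjective x
        have h0 := (h y y.2).1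
        refine ⟨⟨(y, ℓ y - 1), by simp only; omega⟩, q.injective (Eq.trans ?_ e)⟩
        change q ((q ^ (ℓ y - 1)) y) = (q ^ ℓ y) y
        rw [← Perm.mul_apply q, ← pow_succ', Nat.sub_add_cancel h0]
    have hB : q p ∉ B := fun hb => hq ⟨⟨(⟨_, hb⟩, 0), (h _ hb).1⟩, rfl⟩
    rw [hσ _ hB, rT.viaEmbedding_apply_of_notMem ι _ hq, rT.viaEmbedding_apply_of_notMem ι _ hp,
      hσ' _ hB]

theorem card_part (n : ℕ) : Fintype.card (Nat.Partition n) ≤ 2 ^ n :=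
  (Fintype.card_le_of_surjective _ Nat.Partition.ofComposition_surj).trans
    ((composition_card n).le.trans (Nat.pow_le_pow_right (by norm_num) (Nat.sub_le _ _)))

theorem cc (q : Perm Ω) (B : Finset Ω) (R : Finset ℕ)
    (h : ∀ x ∈ B, ∃ l ∈ R, 0 < l ∧ (q ^ l) x ∈ B ∧ ∀ j, 0 < j → j < l → (q ^ j) x ∉ B) :
    ∃ Z : Finset (Perm Ω), Z.card ≤ (2 * R.card) ^ B.card ∧ ∀ σ : Perm Ω, (∀ x ∉ B, σ x = x) →
      ∃ ρ : Perm Ω, {x | ρ x ≠ x}.Finite ∧ ρ * (σ * q) * ρ⁻¹ ∈ Z := by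
  classical
  choose! ℓ hR h using h
  have h : Ret q B ℓ := h
  have a : ∀ l : Nat.Partition (Fintype.card B), ∃ P : Perm B, ∀ π : Perm B, π.partition = l →
      ∃ c : Perm B, c * π * c⁻¹ = P := by
    intro l
    by_cases e : ∃ P : Perm B, P.partition = l
    · obtain ⟨P, rfl⟩ := e
      exact ⟨P, fun π e => isConj_iff.1 (Perm.partition_eq_of_isConj.2 e)⟩
    · exact ⟨1, fun π e' => absurd ⟨π, e'⟩ e⟩
  choose P hP using a
  choose c hc using fun π : Perm B => hP _ π rfl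
  let S := {σ : Perm Ω // ∀ x ∉ B, σ x = x}
  let ty : S → Nat.Partition (Fintype.card B) × (B → R) := fun σ =>
    ((h.pi σ.1 σ.2).partition, fun x => ⟨ℓ ((c (h.pi σ.1 σ.2))⁻¹ x), hR _ (Subtype.prop _)⟩)
  have : Nonempty S := ⟨⟨1, fun _ _ => rfl⟩⟩
  refine ⟨Finset.univ.image fun τ => (Function.invFun ty τ).1 * q, ?_, fun σ hσ => ?_⟩
  · refine Finset.card_image_le.trans ?_
    simp only [Finset.card_univ, Fintype.card_prod, Fintype.card_fun, Fintype.card_coe, mul_pow]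
    exact Nat.mul_le_mul_right _ (by simpa using card_part (Fintype.card B))
  · have e : ty (Function.invFun ty (ty ⟨σ, hσ⟩)) = ty ⟨σ, hσ⟩ := Function.invFun_eq ⟨_, rfl⟩
    set σ' := Function.invFun ty (ty ⟨σ, hσ⟩) with hσ'
    obtain ⟨e1, e2⟩ := Prod.ext_iff.1 e
    obtain ⟨ρ, h1, h2⟩ := h.conj σ σ'.1 hσ σ'.2 ((c (h.pi σ'.1 σ'.2))⁻¹ * c (h.pi σ hσ))
      (fun x => by simpa [ty] using congrFun e2 (c (h.pi σ hσ) x))
      (by
        have a1 := hc (h.pi σ hσ)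
        have a2 := hc (h.pi σ'.1 σ'.2)
        have : (h.pi σ'.1 σ'.2).partition = (h.pi σ hσ).partition := e1
        rw [this, ← a1, mul_inv_eq_iff_eq_mul, ← eq_inv_mul_iff_mul_eq] at a2
        generalize c (h.pi σ'.1 σ'.2) = u at a2 ⊢
        rw [a2]
        group)
    exact ⟨ρ, h1, Finset.mem_image.2 ⟨_, Finset.mem_univ _, h2.symm⟩⟩

end CC

end Pool.Agent.H.MP_2bc940_al
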