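import Pool.Agent.H.MP_2bc940_al.A

set_option autoImplicit false

namespace Pool.Agent.H.MP_2bc940_al

open Equiv

theorem exD : ∃ D : ℕ → ℕ, D 0 = 1 ∧ ∀ i, D (i + 1) = (12 * D i).factorial * D i :=
  ⟨fun i => Nat.rec 1 (fun _ d => (12 * d).factorial * d) i, rfl, fun _ => rfl⟩

noncomputable def D : ℕ → ℕ := Classical.choose exD

theorem D_zero : D 0 = 1 := (Classical.choose_spec exD).1

theorem D_succ (i : ℕ) : D (i + 1) = (12 * D i).factorial * D i := (Classical.choose_spec exD).2 i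

theorem D_pos (i : ℕ) : 0 < D i := by
  induction i with
  | zero => simp [D_zero]
  | succ i ih => rw [D_succ]; exact Nat.mul_pos (Nat.factorial_pos _) ih

theorem D_big (i : ℕ) : 12 * D i * D i ≤ D (i + 1) := by
  rw [D_succ]
  exact Nat.mul_le_mul_right _ (Nat.self_le_factorial _)

theorem D_12 (i : ℕ) : 12 * D i ≤ D (i + 1) :=
  (Nat.le_mul_of_pos_right _ (D_pos i)).trans (D_big i)

theorem D_dvd {i k : ℕ} (h : 0 < k) (h' : k ≤ 12 * D i) : k ∣ D (i + 1) := by
  rw [D_succ]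
  exact (Nat.dvd_factorial h h').mul_right _

theorem D_mono : Monotone D := monotone_nat_of_le_succ fun i => by have := D_12 i; omega

theorem D_two {i j : ℕ} (h : j < i) : 2 * D j ∣ D i := by
  obtain ⟨i, rfl⟩ := Nat.exists_eq_succ_of_ne_zero (by omega : i ≠ 0)
  have := D_mono (Nat.le_of_lt_succ h)
  exact D_dvd (by have := D_pos j; omega) (by omega)

theorem D_pow (i : ℕ) : 2 ^ i ≤ D i := by
  induction i with
  | zero => simp [D_zero]
  | succ i ih => have := D_12 i; omega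

theorem D_sum (J : ℕ) : ∑ i ∈ Finset.range (J + 1), D i ≤ 2 * D J := by
  induction J with
  | zero => simp [D_zero]
  | succ J ih => rw [Finset.sum_range_succ]; have := D_12 J; omega

abbrev Om : Type := Σ i : ℕ, ZMod (3 * D (i + 1))

noncomputable def pt (i : ℕ) (x : ℤ) : Om := ⟨i, (x : ZMod _)⟩

theorem pt_eq {i j : ℕ} {x y : ℤ} (h : pt i x = pt j y) :
    i = j ∧ (x = y ∨ y + 3 * D (i + 1) ≤ x ∨ x + 3 * D (i + 1) ≤ y) := by
  obtain rfl : i = j := congrArg Sigma.fst h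
  refine ⟨rfl, ?_⟩
  have e : ((x : ZMod (3 * D (i + 1)))) = y := eq_of_heq (Sigma.mk.inj h).2
  rw [ZMod.intCast_eq_intCast_iff_dvd_sub] at e
  by_contra hn
  have := Int.eq_zero_of_abs_lt_dvd e (abs_lt.2 (by push_cast; omega))
  omega

theorem pt_add (i : ℕ) (x : ℤ) : pt i (x + 3 * D (i + 1)) = pt i x := by
  unfold pt
  congr 1
  rw [ZMod.intCast_eq_intCast_iff_dvd_sub]
  simp

theorem pt_surj (p : Om) (a : ℤ) : ∃ x, a ≤ x ∧ x < a + 3 * D (p.1 + 1) ∧ p = pt p.1 x := by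
  obtain ⟨i, z⟩ := p
  have := D_pos (i + 1)
  have : NeZero (3 * D (i + 1)) := ⟨by omega⟩
  have h := ZMod.val_lt (z - (a : ZMod (3 * D (i + 1))))
  refine ⟨a + (z - (a : ZMod (3 * D (i + 1)))).val, by omega, by simp only; omega, ?_⟩
  simp [pt]

noncomputable def tt : Perm Om := Equiv.sigmaCongrRight fun _ => Equiv.addRight 1

theorem tt_pt (i : ℕ) (x : ℤ) : tt (pt i x) = pt i (x + 1) := by simp [tt, pt]

theorem tt_inv (i : ℕ) (x : ℤ) : tt⁻¹ (pt i x) = pt i (x - 1) := by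
  rw [Perm.inv_eq_iff_eq, tt_pt, sub_add_cancel]

noncomputable def emb : (ℕ × Bool) × Bool ↪ Om :=
  ⟨fun a => pt (if a.2 then a.1.1 + 1 else a.1.1) (if a.1.2 then 2 * D (a.1.1 + 1)
    else D (a.1.1 + 1)), by
    rintro ⟨⟨i, b⟩, e⟩ ⟨⟨j, c⟩, f⟩ h
    obtain ⟨h1, h2⟩ := pt_eq h
    have a1 := D_pos (i + 1)
    have a2 := D_pos (j + 1)
    have a3 := D_12 (i + 1)
    have a4 := D_12 (j + 1)
    cases e <;> cases f <;> simp only [if_true, Bool.false_eq_true, if_false] at h1 h2 <;>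
      (first | subst h1 | (have h3 : i = j := (by omega); subst h3)) <;>
      cases b <;> cases c <;> simp at h2 ⊢ <;> omega⟩

noncomputable def ss : Perm Om :=
  Perm.viaEmbedding ((Equiv.refl _).prodCongr Equiv.boolNot) emb

theorem ss_up (i : ℕ) {z : ℤ} (hz : z = D (i + 1) ∨ z = 2 * D (i + 1)) :
    ss (pt i z) = pt (i + 1) z ∧ ss (pt (i + 1) z) = pt i z := by
  rcases hz with rfl | rfl
  · exact ⟨Perm.viaEmbedding_apply _ emb ((i, false), false),
      Perm.viaEmbedding_apply _ emb ((i, false), true)⟩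
  · exact ⟨Perm.viaEmbedding_apply _ emb ((i, true), false),
      Perm.viaEmbedding_apply _ emb ((i, true), true)⟩

theorem ss_cases (p : Om) : ss p = p ∨ ∃ (i : ℕ) (z : ℤ), (z = D (i + 1) ∨ z = 2 * D (i + 1)) ∧
    ((p = pt i z ∧ ss p = pt (i + 1) z) ∨ (p = pt (i + 1) z ∧ ss p = pt i z)) := by
  by_cases h : p ∈ Set.range emb
  · right
    obtain ⟨⟨⟨i, b⟩, e⟩, rfl⟩ := h
    have hz : (if b then 2 * D (i + 1) else D (i + 1) : ℤ) = D (i + 1) ∨
        (if b then 2 * D (i + 1) else D (i + 1) : ℤ) = 2 * D (i + 1) := by cases b <;> simp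
    refine ⟨i, _, hz, ?_⟩
    cases e
    · exact Or.inl ⟨rfl, (ss_up i hz).1⟩
    · exact Or.inr ⟨rfl, (ss_up i hz).2⟩
  · exact Or.inl (Perm.viaEmbedding_apply_of_notMem _ _ _ h)

theorem ss_ss (p : Om) : ss (ss p) = p := by
  rcases ss_cases p with h | ⟨i, z, hz, ⟨h1, h2⟩ | ⟨h1, h2⟩⟩
  · rw [h, h]
  · rw [h2, (ss_up i hz).2, h1]
  · rw [h2, (ss_up i hz).1, h1]

theorem ss_inv : ss⁻¹ = ss := by
  ext1 p
  rw [Perm.inv_eq_iff_eq, ss_ss]

theorem fx (i : ℕ) (y : ℤ) (h1 : -(D (i + 1) : ℤ) < y) (h2 : y < 3 * D (i + 1) + D i)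
    (h3 : y ≠ D i) (h4 : y ≠ 2 * D i) (h5 : y ≠ D (i + 1)) (h6 : y ≠ 2 * D (i + 1)) :
    ss (pt i y) = pt i y := by
  rcases ss_cases (pt i y) with h | ⟨j, z, hz, ⟨h, -⟩ | ⟨h, -⟩⟩
  · exact h
  · obtain ⟨rfl, h⟩ := pt_eq h
    have := D_12 i
    omega
  · obtain ⟨rfl, h⟩ := pt_eq h
    have := D_12 (j + 1)
    omega

noncomputable def lt : Fin 3 → Perm Om := ![tt, tt⁻¹, ss]

noncomputable def ev (l : List (Fin 3)) : Perm Om := (l.map lt).prod

def kk : List (Fin 3) → ℤ
  | [] => 0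
  | a :: l => kk l + ![1, -1, 0] a

def ff : List (Fin 3) → ℤ → ZMod 2
  | [], _ => 0
  | a :: l, x => ff l x + if a = 2 ∧ x + kk l = 0 then 1 else 0

theorem ev_cons (a : Fin 3) (l : List (Fin 3)) (p : Om) : ev (a :: l) p = lt a (ev l p) := by
  simp [ev]

theorem kk_le (l : List (Fin 3)) : -(l.length : ℤ) ≤ kk l ∧ kk l ≤ l.length := by
  induction l with
  | nil => simp [kk]
  | cons a l ih => fin_cases a <;> simp [kk] <;> omega

theorem ff_zero (l : List (Fin 3)) (x : ℤ) (h : x < -(l.length : ℤ) ∨ (l.length : ℤ) < x) :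
    ff l x = 0 := by
  induction l with
  | nil => rfl
  | cons a l ih =>
    have := kk_le l
    simp only [List.length_cons] at h
    rw [ff, ih (by omega), if_neg (by omega), add_zero]

theorem ev_free (l : List (Fin 3)) (i : ℕ) (x : ℤ)
    (h : ∀ y, x - l.length ≤ y → y ≤ x + l.length → ss (pt i y) = pt i y) :
    ev l (pt i x) = pt i (x + kk l) := by
  induction l with
  | nil => simp [ev, kk]
  | cons a l ih =>
    simp only [List.length_cons] at h
    have := kk_le l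
    rw [ev_cons, ih fun y h1 h2 => h y (by omega) (by omega)]
    fin_cases a
    · simp [lt, kk, tt_pt, add_assoc]
    · simp [lt, kk, tt_inv, add_assoc, sub_eq_add_neg]
    · simpa [lt, kk] using h _ (by omega) (by omega)

noncomputable def P (i : ℕ) (e : ZMod 2) (a : ℤ) : Om :=
  pt (if e = 0 then i else i + 1) (D (i + 1) + a)

theorem ss_P (i : ℕ) (e : ZMod 2) (a : ℤ) (h1 : 2 * D i < D (i + 1) + a)
    (h2 : a < 2 * D (i + 1)) : ss (P i e a) =
      P i (e + (if a = 0 then 1 else 0) + if a - D (i + 1) = 0 then 1 else 0) a := by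
  have a1 := D_pos i
  have a2 := D_12 i
  have a3 := D_12 (i + 1)
  by_cases c : a = 0 ∨ a = D (i + 1)
  · have := ss_up i (z := D (i + 1) + a) (by omega)
    have e1 : ((if a = 0 then 1 else 0) + if a - D (i + 1) = 0 then 1 else 0 : ZMod 2) = 1 := by
      split_ifs <;> first | omega | simp
    rw [add_assoc, e1]
    fin_cases e
    · exact this.1
    · exact this.2
  · rw [if_neg (by omega), if_neg (by omega), add_zero, add_zero]
    unfold P
    split_ifs <;> apply fx <;> omega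

theorem ev_P (l : List (Fin 3)) (i : ℕ) (e : ZMod 2) (a : ℤ)
    (h1 : 2 * D i + l.length < D (i + 1) + a) (h2 : a + l.length < 2 * D (i + 1)) :
    ev l (P i e a) = P i (e + ff l a + ff l (a - D (i + 1))) (a + kk l) := by
  induction l with
  | nil => simp [ev, kk, ff]
  | cons b l ih =>
    simp only [List.length_cons] at h1 h2
    have := kk_le l
    rw [ev_cons, ih (by omega) (by omega)]
    fin_cases b
    · simp [lt, kk, ff, P, tt_pt, add_assoc]
    · simp [lt, kk, ff, P, tt_inv, add_assoc, sub_eq_add_neg]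
    · simp only [lt, kk, ff, Fin.reduceFinMk, Matrix.cons_val, true_and, add_zero]
      rw [ss_P _ _ _ (by omega) (by omega), add_sub_right_comm]
      congr 1
      ring

end Pool.Agent.H.MP_2bc940_al
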