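import Pool.Agent.H.MP_2bc940_al.B

set_option autoImplicit false

namespace Pool.Agent.H.MP_2bc940_al

open Equiv

def Low (I n m : ℕ) (p : Om) : Prop :=
  p.1 < I ∨ ∃ x : ℤ, p = pt I x ∧ 2 * D (I + 1) + 2 * n - m < x ∧ x < 4 * D (I + 1) - 2 * n + m

theorem Low.step {I n m : ℕ} {p : Om} (hn : n ≤ D I) (hm : m ≤ n) (h : Low I n m p) (a : Fin 3) :
    Low I n (m + 1) (lt a p) := by
  have a1 := D_12 I
  have a0 := D_pos I
  fin_cases a
  · rcases h with h | ⟨x, rfl, h⟩
    · exact Or.inl h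
    · exact Or.inr ⟨x + 1, tt_pt _ _, by omega⟩
  · rcases h with h | ⟨x, rfl, h⟩
    · exact Or.inl h
    · exact Or.inr ⟨x - 1, tt_inv _ _, by omega⟩
  · change Low I n (m + 1) (ss p)
    rcases ss_cases p with e | ⟨i, z, hz, ⟨e1, e2⟩ | ⟨e1, e2⟩⟩
    · rw [e]
      exact h.imp id fun ⟨x, e, h⟩ => ⟨x, e, by omega⟩
    · rw [e2]
      rcases h with h | ⟨x, rfl, h⟩
      · rw [e1] at h
        rcases Nat.lt_or_ge (i + 1) I with c | c
        · exact Or.inl c
        · obtain rfl : I = i + 1 := le_antisymm c h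
          exact Or.inr ⟨_, (pt_add _ _).symm, by omega⟩
      · obtain ⟨rfl, e⟩ := pt_eq e1
        omega
    · rw [e2]
      left
      rcases h with h | ⟨x, rfl, h⟩
      · rw [e1] at h
        exact Nat.lt_of_succ_lt h
      · exact (pt_eq e1).1 ▸ Nat.lt_succ_self i

theorem Low.ev {I n : ℕ} {p : Om} (hn : n ≤ D I) (h : Low I n 0 p) (l : List (Fin 3))
    (hl : l.length ≤ n) : Low I n l.length (ev l p) := by
  induction l with
  | nil => exact h
  | cons a l ih =>
    simp only [List.length_cons] at hl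
    rw [ev_cons]
    exact (ih (by omega)).step hn (by omega) a

theorem exG (l : List (Fin 3)) (L : ℕ) (hd : kk l ≠ 0 → (kk l).natAbs ∣ L) :
    ∃ Γ : ZMod 2 → ℤ → Prop, (∀ e a, a < -(l.length : ℤ) ∨ (L : ℤ) + l.length < a →
      (Γ e a ↔ e = 0)) ∧ ∀ e a, Γ e a → Γ (e + ff l a + ff l (a - L)) (a + kk l) := by
  have two : ∀ x : ZMod 2, x + x = 0 := CharTwo.add_self_eq_zero
  rcases lt_trichotomy (kk l) 0 with c | c | c
  · obtain ⟨m, hm⟩ := hd c.ne
    have hm' : (L : ℤ) = -(kk l * m) := by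
      rw [hm]; push_cast; rw [abs_of_neg c]; ring
    refine ⟨fun e a => e = ∑ j ∈ Finset.range m, ff l (a - L - (j + 1 : ℕ) * kk l),
      fun e a h => ?_, fun e a h => ?_⟩
    · beta_reduce
      rw [Finset.sum_eq_zero]
      intro j hj
      have : (j + 1 : ℕ) * (-kk l) ≤ m * (-kk l) :=
        mul_le_mul_of_nonneg_right (by exact_mod_cast Finset.mem_range.1 hj) (by omega)
      have : 0 ≤ (j + 1 : ℕ) * (-kk l) := mul_nonneg (by omega) (by omega)
      exact ff_zero _ _ (h.imp (fun h => by linarith) fun h => by linarith)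
    · have h1 := Finset.sum_range_succ (fun j : ℕ => ff l (a - L - j * kk l)) m
      rw [Finset.sum_range_succ', show a - L - m * kk l = a by rw [hm']; ring] at h1
      simp only [show ∀ j : ℕ, a + kk l - L - (j + 1 : ℕ) * kk l = a - L - j * kk l from
        fun j => by push_cast; ring]
      simp only [Nat.cast_zero, zero_mul, sub_zero] at h1
      linear_combination h + h1 + two (ff l a)
  · refine ⟨fun e a => e = 0 ∨ (-(l.length : ℤ) ≤ a ∧ a ≤ L + l.length), fun e a h => ?_,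
      fun e a h => ?_⟩
    · exact or_iff_left (by omega)
    · by_cases h' : -(l.length : ℤ) ≤ a ∧ a ≤ L + l.length
      · right; omega
      · left
        rw [h.resolve_right h', ff_zero l a (by omega), ff_zero l _ (by omega)]
        simp
  · obtain ⟨m, hm⟩ := hd c.ne'
    have hm' : (L : ℤ) = kk l * m := by
      rw [hm]; push_cast; rw [abs_of_pos c]
    refine ⟨fun e a => e = ∑ j ∈ Finset.range m, ff l (a - (j + 1 : ℕ) * kk l),
      fun e a h => ?_, fun e a h => ?_⟩
    · beta_reduce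
      rw [Finset.sum_eq_zero]
      intro j hj
      have : (j + 1 : ℕ) * kk l ≤ m * kk l :=
        mul_le_mul_of_nonneg_right (by exact_mod_cast Finset.mem_range.1 hj) (by omega)
      have : 0 ≤ (j + 1 : ℕ) * kk l := mul_nonneg (by omega) (by omega)
      exact ff_zero _ _ (h.imp (fun h => by linarith) fun h => by linarith)
    · have h1 := Finset.sum_range_succ (fun j : ℕ => ff l (a - j * kk l)) m
      rw [Finset.sum_range_succ', show a - m * kk l = a - L by rw [hm']; ring] at h1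
      simp only [show ∀ j : ℕ, a + kk l - (j + 1 : ℕ) * kk l = a - j * kk l from
        fun j => by push_cast; ring]
      simp only [Nat.cast_zero, zero_mul, sub_zero] at h1
      linear_combination h + h1 + two (ff l (a - L))

theorem exY {I n : ℕ} (hn : n ≤ D I) (l : List (Fin 3)) (hl : l.length ≤ n) :
    ∃ Y : Om → Prop, (∀ p, Y p → Y (ev l p)) ∧ (∀ p, Y p → p.1 ≤ I + 1) ∧
      ∀ v : List (Fin 3), v.length ≤ n → Y (ev v (pt 0 0)) := by
  have a1 := D_12 I
  have a0 := D_pos I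
  have hk := kk_le l
  obtain ⟨Γ, h1, h2⟩ := exG l (D (I + 1)) fun h => D_dvd (by omega) (by omega)
  let Y : Om → Prop := fun p => p.1 < I ∨ ∃ e a, Γ e a ∧ -(D (I + 1) : ℤ) ≤ a ∧
    a < 2 * D (I + 1) ∧ p = P I e a
  have k : ∀ p, Low I n 0 p → ∀ v : List (Fin 3), v.length ≤ n → Y (ev v p) := by
    intro p hp v hv
    refine (hp.ev hn v hv).imp id fun ⟨x, e, h⟩ => ?_
    rcases lt_or_ge x (3 * D (I + 1)) with c | c
    · exact ⟨0, x - D (I + 1), (h1 _ _ (by omega)).2 rfl, by omega, by omega, by simp [P, e]⟩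
    · refine ⟨0, x - 4 * D (I + 1), (h1 _ _ (by omega)).2 rfl, by omega, by omega, ?_⟩
      rw [e, P, if_pos rfl, ← pt_add I (_ + _)]
      congr 1
      ring
  refine ⟨Y, fun p hp => ?_, ?_, k _ ?_⟩
  · rcases hp with hp | ⟨e, a, g, b1, b2, rfl⟩
    · exact k p (Or.inl hp) l hl
    by_cases c : -(2 * n : ℤ) ≤ a ∧ a ≤ D (I + 1) + 2 * n
    · exact Or.inr ⟨_, _, h2 e a g, by omega, by omega, ev_P l I e a (by omega) (by omega)⟩
    · obtain rfl := (h1 e a (by omega)).1 g
      refine k _ (Or.inr ?_) l hl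
      rcases lt_or_ge a 0 with c' | c'
      · exact ⟨_, (pt_add I _).symm, by omega⟩
      · exact ⟨_, rfl, by omega⟩
  · rintro p (hp | ⟨e, a, -, -, -, rfl⟩)
    · omega
    · simp only [P, pt]
      split_ifs <;> omega
  · rcases Nat.eq_zero_or_pos I with rfl | c
    · exact Or.inr ⟨_, (pt_add _ _).symm, by omega⟩
    · exact Or.inl c

noncomputable def bp (i : ℕ) : ℕ → ℤ
  | 0 => D i
  | 1 => 2 * D i
  | 2 => D (i + 1)
  | 3 => 2 * D (i + 1)
  | _ => 3 * D (i + 1) + D i

theorem near (v : List (Fin 3)) : ∃ i j x, j < 4 ∧ ev v (pt 0 0) = pt i x ∧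
    x - bp i j ≤ v.length + 1 ∧ bp i j - x ≤ v.length + 1 := by
  induction v with
  | nil => exact ⟨0, 0, 0, by omega, rfl, by simp [bp, D_zero]⟩
  | cons a v ih =>
    obtain ⟨i, j, x, h1, h2, h3⟩ := ih
    rw [ev_cons, h2, List.length_cons]
    fin_cases a
    · exact ⟨i, j, x + 1, h1, tt_pt _ _, by omega⟩
    · exact ⟨i, j, x - 1, h1, tt_inv _ _, by omega⟩
    · rcases ss_cases (pt i x) with e | ⟨i', z, rfl | rfl, ⟨-, e⟩ | ⟨-, e⟩⟩
      · exact ⟨i, j, x, h1, e, by omega⟩
      · exact ⟨_, 0, _, by omega, e, by simp only [bp]; omega⟩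
      · exact ⟨_, 2, _, by omega, e, by simp only [bp]; omega⟩
      · exact ⟨_, 1, _, by omega, e, by simp only [bp]; omega⟩
      · exact ⟨_, 3, _, by omega, e, by simp only [bp]; omega⟩

theorem fx_arc {i j : ℕ} {y : ℤ} (hj : j < 4) (h1 : bp i j < y) (h2 : y < bp i (j + 1)) :
    ss (pt i y) = pt i y := by
  have := D_12 i
  interval_cases j <;> simp only [bp] at h1 h2 <;> apply fx <;> omega

theorem arc_eq {i i' j j' : ℕ} {x y : ℤ} (hj : j < 4) (hj' : j' < 4) (h1 : bp i j ≤ x)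
    (h2 : x < bp i (j + 1)) (h3 : bp i' j' ≤ y) (h4 : y < bp i' (j' + 1)) (e : pt i x = pt i' y) :
    i = i' ∧ j = j' ∧ x = y := by
  obtain ⟨rfl, e⟩ := pt_eq e
  have := D_12 i
  interval_cases j <;> interval_cases j' <;> simp only [bp] at h1 h2 h3 h4 <;> omega

theorem arc_near {i i' j j' : ℕ} {x y r : ℤ} (hj : j < 4) (hj' : j' < 4) (h1 : bp i j + r < x)
    (h2 : x + r < bp i (j + 1)) (h3 : y - bp i' j' ≤ r) (h4 : bp i' j' - y ≤ r) :
    pt i x ≠ pt i' y := by
  intro e
  obtain ⟨rfl, -⟩ := pt_eq e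
  have e' : pt i (x - (y - bp i j')) = pt i (bp i j') := by
    have : ((x : ZMod (3 * D (i + 1)))) = y := eq_of_heq (Sigma.mk.inj e).2
    simp [pt, this]
  have := D_12 i
  have := (pt_eq e').2
  interval_cases j <;> interval_cases j' <;> simp only [bp] at h1 h2 h3 h4 this <;> omega

theorem arc_ex (i : ℕ) {x : ℤ} (h1 : D i ≤ x) (h2 : x < D i + 3 * D (i + 1)) :
    ∃ j < 4, bp i j ≤ x ∧ x < bp i (j + 1) := by
  by_contra hn
  push Not at hn
  have := hn 0; have := hn 1; have := hn 2; have := hn 3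
  simp only [bp] at *
  omega

theorem arith {lo x k : ℤ} {m κ : ℕ} (hκ : κ = max k.natAbs 1) (h1 : lo ≤ x) (h2 : x < lo + m * κ)
    (h3 : ¬ (lo ≤ x - k ∧ x - k < lo + m * κ)) (j : ℕ) (hj : j ≤ m) :
    lo - κ ≤ x + j * k ∧ x + j * k < lo + m * κ + κ ∧
      (lo ≤ x + j * k ∧ x + j * k < lo + m * κ ↔ j < m) := by
  have a1 : (j : ℤ) * κ ≤ m * κ := mul_le_mul_of_nonneg_right (by omega) (by omega)
  have a2 : 0 ≤ (j : ℤ) * κ := by positivity
  have a3 : j < m → (j : ℤ) * κ + κ ≤ m * κ := fun h => by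
    rw [← add_one_mul]
    exact mul_le_mul_of_nonneg_right (by omega) (by omega)
  have a4 : ¬ j < m → (j : ℤ) * κ = m * κ := fun h => by rw [show j = m by omega]
  rcases (by omega : k = κ ∨ k = -κ) with e | e
  · rw [e] at h3 ⊢
    by_cases c : j < m <;> simp only [c, iff_true, iff_false, forall_const, not_true,
      not_false_iff, false_imp_iff] at a3 a4 ⊢ <;> omega
  · rw [e] at h3 ⊢
    rw [mul_neg]
    by_cases c : j < m <;> simp only [c, iff_true, iff_false, forall_const, not_true,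
      not_false_iff, false_imp_iff] at a3 a4 ⊢ <;> omega

end Pool.Agent.H.MP_2bc940_al
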