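import Pool.Agent.H.MP_2bc940_al.C

set_option autoImplicit false

namespace Pool.Agent.H.MP_2bc940_al

open Equiv

theorem propB (n : ℕ) (l : List (Fin 3)) (hl : l.length ≤ n) :
    ∃ (B : Finset Om) (R : Finset ℕ), B.card ≤ 90 * n + 60 ∧ R.card ≤ 13 ∧
      (∀ v : List (Fin 3), v.length ≤ n → ev v (pt 0 0) ∈ B) ∧
      ∀ x ∈ B, ∃ r ∈ R, 0 < r ∧ (ev l ^ r) x ∈ B ∧ ∀ j, 0 < j → j < r → (ev l ^ j) x ∉ B := by
  classical
  have hex : ∃ I, n ≤ D I := ⟨n, (Nat.lt_two_pow_self.le).trans (D_pow n)⟩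
  obtain ⟨I, hI, hI'⟩ : ∃ I, n ≤ D I ∧ ∀ j < I, D j < n :=
    ⟨Nat.find hex, Nat.find_spec hex, fun j hj => not_le.1 (Nat.find_min hex hj)⟩
  obtain ⟨Y, y1, y2, y3⟩ := exY hI l hl
  have hk := kk_le l
  obtain ⟨κ, hκ⟩ : ∃ κ : ℕ, κ = max (kk l).natAbs 1 := ⟨_, rfl⟩
  obtain ⟨m, hm⟩ : ∃ m : ℕ → ℕ → ℕ, ∀ i j,
      (m i j = 0 ∨ bp i j + (3 * n + 2) + m i j * κ ≤ bp i (j + 1) - (3 * n + 2)) ∧
      bp i (j + 1) - (3 * n + 2) - κ < bp i j + (3 * n + 2) + m i j * κ := by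
    refine ⟨fun i j => ((bp i (j + 1) - bp i j - 2 * (3 * n + 2)) / κ).toNat, fun i j => ?_⟩
    have h1 := Int.mul_ediv_add_emod (bp i (j + 1) - bp i j - 2 * (3 * n + 2)) κ
    have h2 := Int.emod_nonneg (bp i (j + 1) - bp i j - 2 * (3 * n + 2)) (b := κ) (by omega)
    have h3 := Int.emod_lt_of_pos (bp i (j + 1) - bp i j - 2 * (3 * n + 2)) (b := κ) (by omega)
    beta_reduce
    generalize (bp i (j + 1) - bp i j - 2 * (3 * n + 2)) / κ = u at *
    rcases le_or_gt 0 u with c | c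
    · rw [Int.toNat_of_nonneg c, mul_comm u]
      omega
    · have : κ * u ≤ 0 := mul_nonpos_of_nonneg_of_nonpos (by omega) c.le
      rw [Int.toNat_of_nonpos c.le]
      refine ⟨Or.inl rfl, ?_⟩
      rw [Nat.cast_zero, zero_mul]
      omega
  let InT : Om → Prop := fun p => ∃ i j x, I ≤ i + 1 ∧ i ≤ I + 1 ∧ j < 4 ∧
    bp i j + (3 * n + 2) ≤ x ∧ x < bp i j + (3 * n + 2) + m i j * κ ∧ p = pt i x
  have pos : ∀ {i j : ℕ} {x : ℤ}, bp i j + (3 * n + 2) ≤ x →
      x < bp i j + (3 * n + 2) + m i j * κ →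
      bp i j + (3 * n + 2) + m i j * κ ≤ bp i (j + 1) - (3 * n + 2) := fun {i j x} h1 h2 =>
    (hm i j).1.resolve_left fun e => by simp only [e] at h2; omega
  let Cov : Finset Om := ((Finset.range (I - 1)).biUnion fun i =>
    (Finset.Ico (0 : ℤ) (3 * D (i + 1))).image (pt i)) ∪
    (Finset.Icc (I - 1) (I + 1) ×ˢ Finset.range 4).biUnion fun a =>
      (Finset.Ico (bp a.1 a.2) (bp a.1 a.2 + (3 * n + 2)) ∪
        Finset.Ico (bp a.1 (a.2 + 1) - (3 * n + 2) - κ) (bp a.1 (a.2 + 1))).image (pt a.1)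
  have mem : ∀ p, p ∈ Cov.filter (fun p => Y p ∧ ¬ InT p) ↔ Y p ∧ ¬ InT p := by
    intro p
    rw [Finset.mem_filter, and_iff_right_iff_imp]
    rintro ⟨h1, h2⟩
    simp only [Cov, Finset.mem_union, Finset.mem_biUnion, Finset.mem_range, Finset.mem_image,
      Finset.mem_Ico, Finset.mem_product, Finset.mem_Icc]
    have := y2 p h1
    rcases lt_or_ge p.1 (I - 1) with c | c
    · obtain ⟨x, a1, a2, a3⟩ := pt_surj p 0
      exact Or.inl ⟨p.1, c, x, by omega, a3.symm⟩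
    · obtain ⟨x, a1, a2, a3⟩ := pt_surj p (D p.1)
      obtain ⟨j, b1, b2, b3⟩ := arc_ex p.1 a1 a2
      refine Or.inr ⟨(p.1, j), ⟨⟨c, this⟩, b1⟩, x, ?_, a3.symm⟩
      by_contra hn
      simp only at hn
      have := (hm p.1 j).2
      exact h2 ⟨p.1, j, x, by omega, by omega, b1, by omega, by omega, a3⟩
  refine ⟨Cov.filter fun p => Y p ∧ ¬ InT p, insert 1 ((Finset.Icc (I - 1) (I + 1) ×ˢ
    Finset.range 4).image fun a => m a.1 a.2 + 1), ?_, ?_, fun v hv => ?_, fun p hp => ?_⟩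
  · have c1 : (Finset.Icc (I - 1) (I + 1) ×ˢ Finset.range 4).card ≤ 12 := by simp; omega
    refine (Finset.card_filter_le _ _).trans ((Finset.card_union_le _ _).trans ?_)
    refine (add_le_add (Finset.card_biUnion_le.trans (Finset.sum_le_sum
      (g := fun i => 3 * D (i + 1)) fun i _ => Finset.card_image_le.trans (by simp)))
      (Finset.card_biUnion_le_card_mul _ _ (7 * n + 5) fun a _ => Finset.card_image_le.trans
        ((Finset.card_union_le _ _).trans (by simp only [Int.card_Ico]; omega)))).trans ?_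
    have c2 : ∑ i ∈ Finset.range (I - 1), D (i + 1) ≤ 2 * n := by
      rcases Nat.eq_zero_or_pos I with rfl | c
      · simp
      · have := D_sum (I - 1)
        have := hI' (I - 1) (by omega)
        rw [Finset.sum_range_succ'] at *
        omega
    rw [← Finset.mul_sum]
    have := Nat.mul_le_mul_right (7 * n + 5) c1
    omega
  · refine (Finset.card_insert_le _ _).trans (Nat.succ_le_succ (Finset.card_image_le.trans ?_))
    simp; omega
  · refine (mem _).2 ⟨y3 v hv, ?_⟩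
    rintro ⟨i, j, x, -, -, a1, a2, a3, a4⟩
    obtain ⟨i', j', x', b1, b2, b3⟩ := near v
    have := pos a2 a3
    exact arc_near (r := n + 1) a1 b1 (by omega) (by omega) (by omega) (by omega)
      (a4.symm.trans b2)
  obtain ⟨h1, h2⟩ := (mem p).1 hp
  by_cases c : InT (ev l p)
  swap
  · exact ⟨1, by simp, one_pos, (mem _).2 ⟨y1 p h1, c⟩, by omega⟩
  obtain ⟨i, j, x, a0, a0', a1, a2, a3, a4⟩ := c
  have a5 := pos a2 a3
  have fr : ∀ y, bp i j + (3 * n + 2) - κ ≤ y → y < bp i j + (3 * n + 2) + m i j * κ + κ →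
      ev l (pt i y) = pt i (y + kk l) := fun y c1 c2 =>
    ev_free l i y fun z c3 c4 => fx_arc a1 (by omega) (by omega)
  have e : p = pt i (x - kk l) := (ev l).injective (by
    rw [fr _ (by omega) (by omega), a4, sub_add_cancel])
  have ar := arith hκ a2 a3 fun h => h2 ⟨i, j, _, a0, a0', a1, h.1, h.2, e⟩
  have it : ∀ r ≤ m i j, (ev l ^ (r + 1)) p = pt i (x + r * kk l) := by
    intro r hr
    induction r with
    | zero => simpa using a4
    | succ r ih =>
      have := ar r (by omega)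
      rw [pow_succ', Perm.mul_apply, ih (by omega), fr _ this.1 this.2.1]
      congr 1
      push_cast
      ring
  have yy : ∀ r, Y ((ev l ^ r) p) := by
    intro r
    induction r with
    | zero => exact h1
    | succ r ih => rw [pow_succ']; exact y1 _ ih
  refine ⟨m i j + 1, Finset.mem_insert_of_mem (Finset.mem_image.2 ⟨(i, j), ?_, rfl⟩),
    Nat.succ_pos _, (mem _).2 ⟨yy _, ?_⟩, fun r r1 r2 hr => ((mem _).1 hr).2 ?_⟩
  · simp; omega
  · rintro ⟨i', j', x', -, -, b1, b2, b3, b4⟩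
    have := ar _ le_rfl
    have b5 := pos b2 b3
    rw [it _ le_rfl] at b4
    obtain ⟨rfl, rfl, rfl⟩ := arc_eq a1 b1 (by omega) (by omega) (by omega) (by omega) b4
    exact lt_irrefl _ (this.2.2.1 ⟨b2, b3⟩)
  · obtain ⟨r, rfl⟩ := Nat.exists_eq_succ_of_ne_zero r1.ne'
    have := (ar r (by omega)).2.2.2 (by omega)
    exact ⟨i, j, _, a0, a0', a1, this.1, this.2, it r (by omega)⟩

end Pool.Agent.H.MP_2bc940_al
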