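import Pool.Agent.H.MP_2bc940_al.E

set_option autoImplicit false

namespace Pool.Agent.H.MP_2bc940_al

open Equiv

noncomputable def cs (I τ : ℕ) : ZMod 2 := ∑ j ∈ Finset.range I, ((τ / D (j + 1) : ℕ) : ZMod 2)

noncomputable def uu (I τ : ℕ) : Perm Om := (if cs I (τ + 1) = 1 then ss else 1) * tt⁻¹

noncomputable def hh (I : ℕ) : ℕ → Perm Om
  | 0 => 1
  | τ + 1 => uu I τ * hh I τ

def Good (I τ : ℕ) : Prop := τ < D (I + 1) ∧ ∀ j ≤ I, 2 * D j < τ % D (j + 1)

theorem div_sub {τ d c : ℕ} (h : c ≤ τ % d) : (τ - c) / d = τ / d := by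
  rcases Nat.eq_zero_or_pos d with rfl | hd
  · simp
  have h1 := Nat.div_add_mod τ d
  have h2 := Nat.mod_lt τ hd
  rw [Nat.div_eq_iff hd, mul_comm]
  omega

theorem par {I τ i : ℕ} (h : Good I τ) (hi : i < I) :
    cs I (τ - D (i + 1)) + cs I (τ - 2 * D (i + 1)) = 1 := by
  have two : ∀ x : ZMod 2, x + x = 0 := CharTwo.add_self_eq_zero
  have h0 : 2 * D (i + 1) ≤ τ := (h.2 _ hi).le.trans (Nat.mod_le _ _)
  have e : τ - D (i + 1) = τ - 2 * D (i + 1) + D (i + 1) := by omega
  rw [cs, cs, ← Finset.sum_add_distrib, Finset.sum_eq_single i]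
  · rw [e, Nat.add_div_right _ (D_pos _)]
    push_cast
    linear_combination two ((τ - 2 * D (i + 1)) / D (i + 1) : ℕ)
  · intro j hj hji
    rcases lt_or_gt_of_ne hji with c | c
    · obtain ⟨m, hm⟩ := D_two (Nat.succ_lt_succ c)
      rw [e]
      generalize τ - 2 * D (i + 1) = x
      rw [hm, show 2 * D (j + 1) * m = D (j + 1) * (m + m) by ring,
        Nat.add_mul_div_left _ _ (D_pos _)]
      push_cast
      linear_combination two (x / D (j + 1) : ℕ) + two m
    · have := h.2 j (Finset.mem_range.1 hj).le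
      have := D_mono (show i + 1 ≤ j from c)
      rw [div_sub (by omega), div_sub (by omega), two]
  · simp [hi]

theorem fx0 (y : ℤ) (h1 : 0 ≤ y) (h2 : y < D 1) : ss (pt 0 y) = pt 0 y := by
  rcases ss_cases (pt 0 y) with h | ⟨j, z, hz, ⟨h, -⟩ | ⟨h, -⟩⟩
  · exact h
  · obtain ⟨rfl, h⟩ := pt_eq h
    simp only [zero_add] at *
    omega
  · exact absurd (pt_eq h).1 (by omega)

theorem traj {I τ : ℕ} (h : Good I τ) (t : ℕ) (ρ : ℕ) (ht : t + ρ = τ) : ∃ i ≤ I,
    ((i = 0 ∨ 2 * D i < ρ) ∧ ρ ≤ D (i + 1) ∧ hh I t (pt I τ) = pt i ρ) ∨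
    (i < I ∧ D (i + 1) < ρ ∧ ρ ≤ 2 * D (i + 1) ∧
      hh I t (pt I τ) = pt (if cs I (τ - 2 * D (i + 1)) = 1 then i else i + 1) ρ) := by
  induction t generalizing ρ with
  | zero =>
    obtain rfl : ρ = τ := by omega
    exact ⟨I, le_rfl, Or.inl ⟨Or.inr ((h.2 I le_rfl).trans_le (Nat.mod_le _ _)), h.1.le, rfl⟩⟩
  | succ t ih =>
    have st : ∀ j, uu I t (pt j (ρ + 1 : ℕ)) =
        if cs I (τ - ρ) = 1 then ss (pt j ρ) else pt j ρ := by
      intro j
      rw [uu, Perm.mul_apply, tt_inv, show t + 1 = τ - ρ by omega]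
      split_ifs <;> simp
    obtain ⟨i, hi, ⟨a1, a2, a3⟩ | ⟨a0, a1, a2, a3⟩⟩ := ih (ρ + 1) (by omega) <;>
      rw [hh, Perm.mul_apply, a3, st]
    · rcases Nat.eq_zero_or_pos i with rfl | c
      · refine ⟨0, hi, Or.inl ⟨Or.inl rfl, by omega, ?_⟩⟩
        rw [fx0 _ (by omega) (by simp only [zero_add] at a2; omega), ite_self]
      obtain ⟨i, rfl⟩ := Nat.exists_eq_succ_of_ne_zero c.ne'
      have := D_pos (i + 1)
      simp only [Nat.succ_eq_add_one] at *
      by_cases c' : ρ = 2 * D (i + 1)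
      · refine ⟨i, by omega, Or.inr ⟨hi, by omega, by omega, ?_⟩⟩
        rw [(ss_up i (Or.inr (by omega))).2, ← c']
        split_ifs <;> rfl
      · refine ⟨i + 1, hi, Or.inl ⟨by omega, by omega, ?_⟩⟩
        rw [fx _ _ (by omega) (by omega) (by omega) (by omega) (by omega) (by omega), ite_self]
    · have := D_12 i
      have := D_12 (i + 1)
      have := D_pos i
      by_cases c' : ρ = D (i + 1)
      · refine ⟨i, hi, Or.inl ⟨by omega, by omega, ?_⟩⟩
        have p := par h a0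
        rw [← c'] at p
        rw [← c']
        generalize cs I (τ - ρ) = u at *
        generalize cs I (τ - 2 * ρ) = v at *
        fin_cases u <;> fin_cases v
        · exact absurd p (by decide)
        · rfl
        · exact (ss_up i (Or.inl (by omega))).2
        · exact absurd p (by decide)
      · refine ⟨i, hi, Or.inr ⟨a0, by omega, by omega, ?_⟩⟩
        have : ∀ j, j = i ∨ j = i + 1 → ss (pt j ρ) = pt j ρ := by
          rintro j (rfl | rfl) <;> apply fx <;> omega
        rw [this _ (by split_ifs <;> simp), ite_self]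

theorem traj' {I τ : ℕ} (h : Good I τ) (t : ℕ) (ρ : ℕ) (ht : t + ρ = τ) :
    ∃ i, hh I t (pt I τ) = pt i ρ ∧ ρ ≤ 2 * D (i + 1) ∧ (ρ = 0 → i = 0) := by
  obtain ⟨i, -, ⟨a1, a2, a3⟩ | ⟨a0, a1, a2, a3⟩⟩ := traj h t ρ ht
  · exact ⟨i, a3, by omega, by omega⟩
  · refine ⟨_, a3, ?_, by omega⟩
    have := D_12 (i + 1)
    split_ifs <;> omega

open Classical in
theorem good_card (I : ℕ) :
    D (I + 1) ≤ 2 * ((Finset.range (D (I + 1))).filter (Good I)).card := by
  let bad : ℕ → Finset ℕ := fun j => (Finset.range (D (I + 1))).filter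
    fun τ => τ % D (j + 1) < 2 * D j + 1
  have b : ∀ j ∈ Finset.range (I + 1), ((bad j).card : ℝ) ≤ D (I + 1) / 4 * (1 / 2) ^ j := by
    intro j hj
    obtain ⟨m, hm⟩ : D (j + 1) ∣ D (I + 1) := by
      rcases (Nat.le_of_lt_succ (Finset.mem_range.1 hj)).eq_or_lt with rfl | c
      · rfl
      · exact (Dvd.intro_left _ rfl).trans (D_two (Nat.succ_lt_succ c))
    have h1 : (bad j).card ≤ (Finset.range m ×ˢ Finset.range (2 * D j + 1)).card := by
      refine Finset.card_le_card_of_injOn (fun τ => (τ / D (j + 1), τ % D (j + 1))) ?_ ?_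
      · intro τ hτ
        simp only [bad, Finset.coe_filter, Finset.mem_range, Set.mem_ofPred_eq] at hτ
        simpa using ⟨Nat.div_lt_of_lt_mul (hm ▸ hτ.1), Nat.le_of_lt_succ hτ.2⟩
      · intro x _ y _ e
        simp only [Prod.mk.injEq] at e
        rw [← Nat.div_add_mod x (D (j + 1)), e.1, e.2, Nat.div_add_mod]
    simp only [Finset.card_product, Finset.card_range] at h1
    have h2 : (bad j).card * (4 * 2 ^ j) ≤ D (I + 1) := by
      have := D_big j
      have := D_pos j
      calc _ ≤ m * (3 * D j) * (4 * D j) :=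
            Nat.mul_le_mul (h1.trans (Nat.mul_le_mul_left _ (by omega)))
              (Nat.mul_le_mul_left _ (D_pow j))
        _ = 12 * D j * D j * m := by ring
        _ ≤ _ := hm ▸ Nat.mul_le_mul_right _ (D_big j)
    rw [one_div, inv_pow, ← div_eq_mul_inv, div_div, le_div_iff₀ (by positivity)]
    exact_mod_cast h2
  have s := Finset.sum_le_sum b
  rw [← Finset.mul_sum] at s
  have g := sum_geometric_two_le (I + 1)
  have c : D (I + 1) ≤ ((Finset.range (D (I + 1))).filter (Good I)).card +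
      ∑ j ∈ Finset.range (I + 1), (bad j).card := by
    refine le_trans ?_ (Nat.add_le_add_left Finset.card_biUnion_le _)
    refine le_trans ?_ (Finset.card_union_le _ _)
    conv_lhs => rw [← Finset.card_range (D (I + 1))]
    refine Finset.card_le_card fun τ hτ => ?_
    simp only [bad, Good, Finset.mem_union, Finset.mem_filter, Finset.mem_biUnion,
      Finset.mem_range] at hτ ⊢
    by_contra hn
    push Not at hn
    obtain ⟨j, h1, h2⟩ := hn.1 hτ hτ
    have := hn.2 j (by omega) hτ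
    omega
  have c' : (D (I + 1) : ℝ) ≤ _ := Nat.cast_le.2 c
  push_cast at c'
  have : (D (I + 1) : ℝ) ≤ 2 * ((Finset.range (D (I + 1))).filter (Good I)).card := by
    have : (0 : ℝ) ≤ D (I + 1) := by positivity
    nlinarith
  exact_mod_cast this

open Classical in
noncomputable def gg (I : ℕ) (z : ℕ → Om) : ℕ → Perm Om
  | 0 => 1
  | τ + 1 => uu I τ * ((if Good I τ then swap (pt 0 0) (z τ) else 1) * gg I z τ)

def Off (p : Om) : Prop := ∃ i x, p = pt i x ∧ 2 * D (i + 1) < x ∧ x < 3 * D (i + 1)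

theorem gg_fix {I τ : ℕ} (h : Good I τ) {z : ℕ → Om} (hz : ∀ t, Off (z t)) (t : ℕ) (ht : t ≤ τ) :
    gg I z t (pt I τ) = hh I t (pt I τ) := by
  induction t with
  | zero => rfl
  | succ t ih =>
    simp only [gg, hh, Perm.mul_apply, ih (by omega)]
    congr 1
    split_ifs
    · obtain ⟨i, h1, h2, -⟩ := traj' h t (τ - t) (by omega)
      obtain ⟨j, x, h3, h4⟩ := hz t
      rw [h1, h3]
      refine swap_apply_of_ne_of_ne (fun e => ?_) fun e => ?_ <;>
        obtain ⟨rfl, e⟩ := pt_eq e <;> omega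
    · rfl

theorem gg_inj {I : ℕ} {z z' : ℕ → Om} (hz : ∀ t, Off (z t)) (hz' : ∀ t, Off (z' t)) (N : ℕ)
    (e : gg I z N = gg I z' N) : ∀ τ < N, Good I τ → z τ = z' τ := by
  induction N with
  | zero => simp
  | succ N ih =>
    simp only [gg, mul_right_inj] at e
    by_cases c : Good I N
    · obtain ⟨i, h1, -, h2⟩ := traj' c N 0 rfl
      have e' := congrArg (fun g : Perm Om => g (pt I N)) e
      simp only [if_pos c, Perm.mul_apply, gg_fix c hz N le_rfl, gg_fix c hz' N le_rfl, h1, h2 rfl,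
        Nat.cast_zero, swap_apply_left] at e'
      rw [e', mul_right_inj] at e
      intro τ hτ
      rcases (Nat.le_of_lt_succ hτ).eq_or_lt with rfl | hτ
      · exact fun _ => e'
      · exact ih e τ hτ
    · simp only [if_neg c, one_mul] at e
      intro τ hτ hg
      exact ih e τ (lt_of_le_of_ne (Nat.le_of_lt_succ hτ) fun e => c (e ▸ hg)) hg

end Pool.Agent.H.MP_2bc940_al
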