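import Pool.Agent.H.MP_2bc940_al.F

set_option autoImplicit false

namespace Pool.Agent.H.MP_2bc940_al

open Equiv Filter Pointwise

section Ball
variable {G : Type} [Group G] {S : Finset G}

def Bl (S : Finset G) (n : ℕ) : Set G :=
  {g : G | ∃ l : List G, l.length ≤ n ∧ (∀ x ∈ l, x ∈ S ∨ x⁻¹ ∈ S) ∧ l.prod = g}

theorem Bl_one (n : ℕ) : (1 : G) ∈ Bl S n := ⟨[], by simp, by simp, rfl⟩

theorem Bl_mul {a b : G} {m n : ℕ} (ha : a ∈ Bl S m) (hb : b ∈ Bl S n) : a * b ∈ Bl S (m + n) := by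
  obtain ⟨l, h1, h2, rfl⟩ := ha
  obtain ⟨l', h3, h4, rfl⟩ := hb
  exact ⟨l ++ l', by simp; omega, fun x hx => (List.mem_append.1 hx).elim (h2 x) (h4 x), by simp⟩

theorem Bl_gen {x : G} (h : x ∈ S ∨ x⁻¹ ∈ S) : x ∈ Bl S 1 := ⟨[x], by simp, by simpa, by simp⟩

theorem Bl_ind {P : ℕ → G → Prop} (h0 : ∀ n, P n 1)
    (h2 : ∀ n g x, (x ∈ S ∨ x⁻¹ ∈ S) → P n g → P (n + 1) (x * g)) {n : ℕ} {g : G}
    (h : g ∈ Bl S n) : P n g := by
  obtain ⟨l, a, b, rfl⟩ := h
  induction l generalizing n with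
  | nil => exact h0 n
  | cons x l ih =>
    obtain ⟨n, rfl⟩ := Nat.exists_eq_succ_of_ne_zero (by rintro rfl; simp at a : n ≠ 0)
    rw [List.prod_cons]
    exact h2 _ _ _ (b x (by simp)) (ih (by simpa using a) fun y hy => b y (by simp [hy]))

theorem Bl_card (S : Finset G) (n : ℕ) :
    (Bl S n).Finite ∧ (Bl S n).ncard ≤ (2 * S.card + 1) ^ n := by
  classical
  have h : Bl S n ⊆ ((insert 1 (S ∪ S⁻¹)) ^ n : Finset G) := fun g hg => by
    refine Bl_ind (P := fun n g => g ∈ ((insert 1 (S ∪ S⁻¹)) ^ n : Finset G))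
      (fun n => Finset.one_mem_pow (by simp)) (fun n g x hx h => ?_) hg
    rw [pow_succ']
    exact Finset.mul_mem_mul (by simpa [Finset.mem_inv'] using Or.inr hx) h
  refine ⟨(Finset.finite_toSet _).subset h, (Set.ncard_le_ncard h).trans ?_⟩
  rw [Set.ncard_coe_finset]
  refine Finset.card_pow_le.trans (Nat.pow_le_pow_left ((Finset.card_insert_le _ _).trans ?_) _)
  have := Finset.card_union_le S S⁻¹
  rw [Finset.card_inv] at this
  omega

theorem Bl_map {H : Type} [Group H] {T : Finset H} (f : G →* H) (h : ∀ x ∈ S, f x ∈ T ∨ f x = 1)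
    {n : ℕ} {g : G} (hg : g ∈ Bl S n) : f g ∈ Bl T n := by
  refine Bl_ind (P := fun n g => f g ∈ Bl T n) (fun n => by simpa using Bl_one n)
    (fun n g x hx hh => ?_) hg
  rw [map_mul, add_comm]
  refine Bl_mul ?_ hh
  rcases hx with hx | hx <;> rcases h _ hx with e | e
  · exact Bl_gen (Or.inl e)
  · exact e ▸ Bl_one 1
  · exact Bl_gen (Or.inr (by simpa using e))
  · rw [show f x = 1 by simpa using e]; exact Bl_one 1

end Ball

noncomputable def G0 : Subgroup (Perm Om) := Subgroup.closure {tt, ss, swap (pt 0 0) (pt 0 1)}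

theorem tt_mem : tt ∈ G0 := Subgroup.subset_closure (by simp)
theorem ss_mem : ss ∈ G0 := Subgroup.subset_closure (by simp)

theorem sw_conj {g : Perm Om} (hg : g ∈ G0) {a b : Om} (h : swap a b ∈ G0) :
    swap (g a) (g b) ∈ G0 := by
  rw [swap_apply_apply]
  exact G0.mul_mem (G0.mul_mem hg h) (G0.inv_mem hg)

theorem sw_lev {i : ℕ} {a : ℤ} (h : swap (pt i a) (pt i (a + 1)) ∈ G0) (x y : ℤ) :
    swap (pt i x) (pt i y) ∈ G0 := by
  have k : ∀ x, swap (pt i x) (pt i (x + 1)) ∈ G0 := fun x => by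
    induction x using Int.inductionOn' (b := a) with
    | zero => exact h
    | succ x _ ih => simpa only [tt_pt] using sw_conj tt_mem ih
    | pred x _ ih => simpa [tt_inv] using sw_conj (G0.inv_mem tt_mem) ih
  induction y using Int.inductionOn' (b := x) with
  | zero => rw [swap_self]; exact G0.one_mem
  | succ y _ ih => exact SubmonoidClass.swap_mem_trans G0 ih (k y)
  | pred y _ ih => exact SubmonoidClass.swap_mem_trans G0 ih (by simpa [swap_comm] using k (y - 1))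

theorem sw_symm {a b : Om} (h : swap a b ∈ G0) : swap b a ∈ G0 := by rwa [swap_comm]

theorem sw_all (i : ℕ) : ∀ x, swap (pt 0 0) (pt i x) ∈ G0 := by
  have tr := fun {a b c : Om} => SubmonoidClass.swap_mem_trans (a := a) (b := b) (c := c) G0
  induction i with
  | zero => exact sw_lev (a := 0) (Subgroup.subset_closure (by simp)) 0
  | succ i ih =>
    have := D_12 i
    have := D_pos i
    have a := sw_conj ss_mem (tr (sw_symm (ih (D (i + 1) + 1))) (ih (D (i + 1))))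
    rw [(ss_up i (Or.inl rfl)).1,
      fx _ _ (by omega) (by omega) (by omega) (by omega) (by omega) (by omega)] at a
    have b := sw_conj tt_mem a
    rw [tt_pt, tt_pt] at b
    have a' := tr (ih _) a
    exact fun x => tr a' (sw_lev (tr (sw_symm a') (tr (ih _) b)) _ _)

theorem sw_mem (a b : Om) : swap a b ∈ G0 := by
  obtain ⟨x, -, -, e⟩ := pt_surj a 0
  obtain ⟨y, -, -, e'⟩ := pt_surj b 0
  exact SubmonoidClass.swap_mem_trans G0 (sw_symm (e ▸ sw_all _ x)) (e' ▸ sw_all _ y)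

theorem fin_mem {ρ : Perm Om} (h : {x | ρ x ≠ x}.Finite) : ρ ∈ G0 :=
  (Subgroup.closure_le G0).2 (by rintro _ ⟨a, b, -, rfl⟩; exact sw_mem a b)
    (mem_closure_isSwap'.2 h)

theorem reach (i : ℕ) : ∀ x, ∃ v, ev v (pt 0 0) = pt i x := by
  have k : ∀ i a, (∃ v, ev v (pt 0 0) = pt i a) → ∀ x, ∃ v, ev v (pt 0 0) = pt i x := by
    intro i a h x
    induction x using Int.inductionOn' (b := a) with
    | zero => exact h
    | succ x _ ih => exact ih.elim fun v e => ⟨0 :: v, by rw [ev_cons, e]; exact tt_pt _ _⟩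
    | pred x _ ih => exact ih.elim fun v e => ⟨1 :: v, by rw [ev_cons, e]; exact tt_inv _ _⟩
  induction i with
  | zero => exact k 0 0 ⟨[], rfl⟩
  | succ i ih =>
    obtain ⟨v, e⟩ := ih (D (i + 1))
    exact k _ _ ⟨2 :: v, by rw [ev_cons, e]; exact (ss_up i (Or.inl rfl)).1⟩

def Rc (m : ℕ) (p : Om) : Prop := ∃ v : List (Fin 3), v.length ≤ m ∧ ev v (pt 0 0) = p

theorem upper (T : Finset G0) (R : ℕ) (hT : ∀ x ∈ T, x.1 = tt ∨ x.1 = ss ∨
    ∃ a b, Rc R a ∧ Rc R b ∧ x.1 = swap a b) (n : ℕ) :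
    (ConjClasses.mk '' Bl T n).ncard ≤ 26 ^ (90 * R + 60) * (5 * 26 ^ 90) ^ n := by
  classical
  have dec : ∀ g ∈ Bl T n, ∃ (σ : Perm Om) (l : List (Fin 3)), l.length ≤ n ∧ g.1 = σ * ev l ∧
      ∀ p, σ p ≠ p → Rc (n + R) p := by
    intro g hg
    refine Bl_ind (P := fun n g => ∃ (σ : Perm Om) (l : List (Fin 3)), l.length ≤ n ∧
      g.1 = σ * ev l ∧ ∀ p, σ p ≠ p → Rc (n + R) p)
      (fun n => ⟨1, [], by simp, by simp [ev], by simp⟩) ?_ hg
    rintro n g x hx ⟨σ, l, h1, h2, h3⟩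
    have : (∃ a, x.1 = lt a) ∨ ∃ a b, Rc R a ∧ Rc R b ∧ x.1 = swap a b := by
      rcases hx with hx | hx <;> rcases hT _ hx with e | e | ⟨a, b, h1, h2, e⟩
      · exact Or.inl ⟨0, e⟩
      · exact Or.inl ⟨2, e⟩
      · exact Or.inr ⟨a, b, h1, h2, e⟩
      · exact Or.inl ⟨1, inv_eq_iff_eq_inv.1 e⟩
      · exact Or.inl ⟨2, (inv_eq_iff_eq_inv.1 e).trans ss_inv⟩
      · exact Or.inr ⟨a, b, h1, h2, (inv_eq_iff_eq_inv.1 e).trans (swap_inv a b)⟩
    rcases this with ⟨a, e⟩ | ⟨a, b, ⟨u, a1, a2⟩, ⟨v, b1, b2⟩, e⟩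
    · refine ⟨lt a * σ * (lt a)⁻¹, a :: l, by simpa, by simp [e, h2, ev, mul_assoc], fun p hp => ?_⟩
      obtain ⟨v, c1, c2⟩ := h3 ((lt a)⁻¹ p) fun c => hp (by
        rw [Perm.mul_apply, Perm.mul_apply, c, ← Perm.mul_apply, mul_inv_cancel, Perm.one_apply])
      exact ⟨a :: v, by simp; omega, by simp [ev_cons, c2]⟩
    · refine ⟨swap a b * σ, l, by omega, by simp [e, h2, mul_assoc], fun p hp => ?_⟩
      by_cases c : σ p = p
      · rw [Perm.mul_apply, c] at hp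
        rcases eq_or_eq_of_swap_apply_ne_self hp with rfl | rfl
        · exact ⟨u, by omega, a2⟩
        · exact ⟨v, by omega, b2⟩
      · exact (h3 p c).imp fun v h => ⟨by omega, h.2⟩
  have z : ∀ q : Perm Om, ∃ Z : Finset (Perm Om), Z.card ≤ 26 ^ (90 * (n + R) + 60) ∧
      ∀ l : List (Fin 3), l.length ≤ n → ev l = q → ∀ σ : Perm Om, (∀ p, σ p ≠ p → Rc (n + R) p) →
        ∃ ρ ∈ G0, ρ * (σ * q) * ρ⁻¹ ∈ Z := by
    intro q
    by_cases e : ∃ l : List (Fin 3), l.length ≤ n ∧ ev l = q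
    · obtain ⟨l, h1, rfl⟩ := e
      obtain ⟨B, R', b1, b2, b3, b4⟩ := propB (n + R) l (by omega)
      obtain ⟨Z, z1, z2⟩ := cc _ B R' b4
      refine ⟨Z, z1.trans ((Nat.pow_le_pow_left (by omega) _).trans
        (Nat.pow_le_pow_right (by omega) b1)), fun _ _ _ σ hσ => ?_⟩
      obtain ⟨ρ, r1, r2⟩ := z2 σ fun x hx => by
        by_contra c
        obtain ⟨v, c1, rfl⟩ := hσ x c
        exact hx (b3 v c1)
      exact ⟨ρ, fin_mem r1, r2⟩
    · exact ⟨∅, by simp, fun l h1 h2 => absurd ⟨l, h1, h2⟩ e⟩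
  choose Z z1 z2 using z
  obtain ⟨f1, f2⟩ := Bl_card ({tt, ss} : Finset (Perm Om)) n
  have sub : ConjClasses.mk '' Bl T n ⊆ ((f1.toFinset.biUnion Z).image fun y =>
      if h : y ∈ G0 then ConjClasses.mk (⟨y, h⟩ : G0) else 1 : Finset _) := by
    rintro _ ⟨g, hg, rfl⟩
    obtain ⟨σ, l, h1, h2, h3⟩ := dec g hg
    obtain ⟨ρ, r1, r2⟩ := z2 _ l h1 rfl σ h3
    rw [← h2] at r2
    refine Finset.mem_coe.2 (Finset.mem_image.2 ⟨_, Finset.mem_biUnion.2 ⟨ev l, ?_, r2⟩, ?_⟩)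
    · refine f1.mem_toFinset.2 ⟨l.map lt, by simpa, fun x hx => ?_, rfl⟩
      obtain ⟨a, -, rfl⟩ := List.mem_map.1 hx
      fin_cases a <;> simp [lt]
    · rw [dif_pos (G0.mul_mem (G0.mul_mem r1 g.2) (G0.inv_mem r1)), eq_comm,
        ConjClasses.mk_eq_mk_iff_isConj]
      exact isConj_iff.2 ⟨⟨ρ, r1⟩, rfl⟩
  refine (Set.ncard_le_ncard sub).trans ?_
  rw [Set.ncard_coe_finset]
  refine Finset.card_image_le.trans
    ((Finset.card_biUnion_le_card_mul _ _ _ fun q _ => z1 q).trans ?_)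
  rw [← Set.ncard_eq_toFinset_card _ f1]
  refine (Nat.mul_le_mul_right _ (f2.trans (Nat.pow_le_pow_left (m := 5) ?_ n))).trans
    (le_of_eq ?_)
  · have := Finset.card_le_two (a := tt) (b := ss)
    omega
  · rw [mul_pow, ← pow_mul, show 90 * (n + R) + 60 = 90 * R + 60 + 90 * n by ring, pow_add _ _ (90 * n)]
    ac_rfl

end Pool.Agent.H.MP_2bc940_al
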