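import Pool.Agent.H.MP_2bc940_al.G

set_option autoImplicit false

namespace Pool.Agent.H.MP_2bc940_al

open Equiv Filter

open Classical in
noncomputable def S0 : Finset G0 := {⟨tt, tt_mem⟩, ⟨ss, ss_mem⟩, ⟨_, sw_mem (pt 0 0) (pt 0 1)⟩}

theorem S0_top : Subgroup.closure (S0 : Set G0) = ⊤ := by
  refine eq_top_iff.2 (Subgroup.closure_closure_coe_preimage.ge.trans (Subgroup.closure_mono ?_))
  rintro ⟨x, hx⟩ h
  have : ∀ y : G0, y.1 ∈ ({tt, ss, swap (pt 0 0) (pt 0 1)} : Set (Perm Om)) → y ∈ S0 := by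
    rintro ⟨y, hy⟩ (rfl | rfl | rfl) <;> simp [S0]
  exact this ⟨x, hx⟩ h

theorem G0_main (ρ : ℕ) : ∃ T : Finset G0, S0 ⊆ T ∧ (∃ K : ℕ, ∀ n,
    (ConjClasses.mk '' Bl T n).ncard ≤ K * (5 * 26 ^ 90) ^ n) ∧
    ∃ᶠ n in atTop, ρ ^ n ≤ (Bl T n).ncard := by
  classical
  obtain ⟨w, hw⟩ : ∃ w, w = ρ ^ 6 + 1 := ⟨_, rfl⟩
  have h1 : w < D (w + 1) := (Nat.lt_succ_self w).trans (Nat.lt_two_pow_self.trans_le (D_pow _))
  let o : Fin w → Om := fun j => pt w (2 * D (w + 1) + 1 + j)
  have o1 : ∀ j, Off (o j) := fun j => ⟨w, _, rfl, by omega, by omega⟩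
  have o2 : Function.Injective o := fun i j e => by have := (pt_eq e).2; omega
  choose v hv using reach
  obtain ⟨R, hR⟩ := (Set.finite_range fun j : Fin w => (v w (2 * D (w + 1) + 1 + j)).length).bddAbove
  let T := S0 ∪ Finset.univ.image fun j => (⟨_, sw_mem (pt 0 0) (o j)⟩ : G0)
  refine ⟨T, Finset.subset_union_left, ⟨_, upper T (R + 1) fun x hx => ?_⟩, ?_⟩
  · have r0 : Rc (R + 1) (pt 0 0) := ⟨[], by simp, rfl⟩
    simp only [T, S0, Finset.mem_union, Finset.mem_insert, Finset.mem_singleton, Finset.mem_image,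
      Finset.mem_univ, true_and] at hx
    rcases hx with (rfl | rfl | rfl) | ⟨j, rfl⟩
    · exact Or.inl rfl
    · exact Or.inr (Or.inl rfl)
    · exact Or.inr (Or.inr ⟨_, _, r0, ⟨[0], by simp, by rw [ev_cons]; exact tt_pt 0 0⟩, rfl⟩)
    · exact Or.inr (Or.inr ⟨_, _, r0, ⟨_, (hR ⟨j, rfl⟩).trans R.le_succ, hv _ _⟩, rfl⟩)
  rw [frequently_atTop]
  intro I
  have g : ∀ (z : ℕ → Fin w) (τ : ℕ), ∃ g ∈ Bl T (3 * τ), g.1 = gg I (fun t => o (z t)) τ := by
    intro z τ
    induction τ with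
    | zero => exact ⟨1, Bl_one _, rfl⟩
    | succ τ ih =>
      obtain ⟨g, g1, g2⟩ := ih
      have a : (if cs I (τ + 1) = 1 then ⟨ss, ss_mem⟩ else 1 : G0) ∈ Bl T 1 := by
        split_ifs
        · exact Bl_gen (Or.inl (by simp [T, S0]))
        · exact Bl_one _
      have b : (⟨tt, tt_mem⟩ : G0)⁻¹ ∈ Bl T 1 := Bl_gen (Or.inr (by simp [T, S0]))
      have c : (if Good I τ then ⟨_, sw_mem (pt 0 0) (o (z τ))⟩ else 1 : G0) ∈ Bl T 1 := by
        split_ifs
        · exact Bl_gen (Or.inl (Finset.mem_union_right _ (Finset.mem_image.2 ⟨_, by simp, rfl⟩)))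
        · exact Bl_one _
      refine ⟨_, (show 1 + 1 + (1 + 3 * τ) = 3 * (τ + 1) by ring) ▸
        Bl_mul (Bl_mul a b) (Bl_mul c g1), ?_⟩
      simp only [gg, uu, ← g2]
      split_ifs <;> rfl
  choose F f1 f2 using fun z => g z (D (I + 1))
  have hI : I ≤ D (I + 1) := (Nat.le_succ I).trans (Nat.lt_two_pow_self.le.trans (D_pow _))
  refine ⟨3 * D (I + 1), by omega, ?_⟩
  let A := (Finset.range (D (I + 1))).filter (Good I)
  have := Set.ncard_le_ncard_of_injOn (s := Set.univ)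
    (fun y : A → Fin w => F fun t => if h : t ∈ A then y ⟨t, h⟩ else ⟨0, by omega⟩)
    (fun y _ => f1 _) (fun y _ y' _ e => by
      have e' := congrArg Subtype.val e
      simp only [f2] at e'
      funext ⟨t, ht⟩
      have ht' := Finset.mem_filter.1 ht
      simpa [ht] using o2 (gg_inj (fun _ => o1 _) (fun _ => o1 _) _ e' t
        (Finset.mem_range.1 ht'.1) ht'.2)) (Bl_card T _).1
  refine le_trans ?_ this
  rw [Set.ncard_univ, Nat.card_fun, Nat.card_fin, Nat.card_eq_finsetCard]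
  have gc : D (I + 1) ≤ 2 * A.card := good_card I
  rcases Nat.eq_zero_or_pos ρ with rfl | hρ
  · rw [zero_pow (by have := D_pos (I + 1); omega)]
    exact Nat.zero_le _
  calc ρ ^ (3 * D (I + 1)) ≤ ρ ^ (6 * A.card) := Nat.pow_le_pow_right hρ (by omega)
    _ ≤ _ := by
      rw [pow_mul]
      exact Nat.pow_le_pow_left (by omega) _

@[ext] structure LL where
  f : ℤ →₀ ZMod 7
  k : ℤ

noncomputable def sh (k : ℤ) (f : ℤ →₀ ZMod 7) : ℤ →₀ ZMod 7 :=
  Finsupp.equivMapDomain (Equiv.addRight k) f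

@[simp] theorem sh_apply (k : ℤ) (f : ℤ →₀ ZMod 7) (x : ℤ) : sh k f x = f (x - k) := by
  simp [sh, sub_eq_add_neg]

noncomputable instance : Mul LL := ⟨fun a b => ⟨a.f + sh a.k b.f, a.k + b.k⟩⟩
noncomputable instance : One LL := ⟨⟨0, 0⟩⟩
noncomputable instance : Inv LL := ⟨fun a => ⟨-sh (-a.k) a.f, -a.k⟩⟩

@[simp] theorem mul_f (a b : LL) : (a * b).f = a.f + sh a.k b.f := rfl
@[simp] theorem mul_k (a b : LL) : (a * b).k = a.k + b.k := rfl
@[simp] theorem one_f : (1 : LL).f = 0 := rfl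
@[simp] theorem one_k : (1 : LL).k = 0 := rfl
@[simp] theorem inv_f (a : LL) : a⁻¹.f = -sh (-a.k) a.f := rfl
@[simp] theorem inv_k (a : LL) : a⁻¹.k = -a.k := rfl

noncomputable instance : Group LL := Group.ofLeftAxioms
  (fun a b c => by ext <;> simp [add_assoc, sub_sub]) (fun a => by ext <;> simp)
  (fun a => by ext <;> simp)

open Classical in
noncomputable def SA : Finset LL := Finset.univ.image fun j : ZMod 7 => ⟨Finsupp.single 0 j, 1⟩

theorem mem_SA (j : ZMod 7) : (⟨Finsupp.single 0 j, 1⟩ : LL) ∈ SA := by simp [SA]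

theorem SA_top : Subgroup.closure (SA : Set LL) = ⊤ := by
  have m : ∀ j : ZMod 7, (⟨Finsupp.single 0 j, 1⟩ : LL) ∈ Subgroup.closure (SA : Set LL) :=
    fun j => Subgroup.subset_closure (mem_SA j)
  have a : ∀ k, (⟨0, k⟩ : LL) ∈ Subgroup.closure (SA : Set LL) := by
    intro k
    induction k with
    | zero => exact Subgroup.one_mem _
    | succ k ih => convert Subgroup.mul_mem _ ih (m 0) using 1; ext <;> simp
    | pred k ih =>
      convert Subgroup.mul_mem _ ih (Subgroup.inv_mem _ (m 0)) using 1; ext <;> simp; ring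
  have b : ∀ f, (⟨f, 0⟩ : LL) ∈ Subgroup.closure (SA : Set LL) := by
    intro f
    induction f using Finsupp.induction_linear with
    | zero => exact a 0
    | add f g hf hg => convert Subgroup.mul_mem _ hf hg using 1; ext <;> simp
    | single x j =>
      convert Subgroup.mul_mem _ (Subgroup.mul_mem _ (a x) (m j)) (a (-1 - x)) using 1
      ext <;> simp [Finsupp.single_apply, eq_sub_iff_add_eq]; ring
  rw [eq_top_iff]
  rintro ⟨f, k⟩ -
  convert Subgroup.mul_mem _ (b f) (a k) using 1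
  ext <;> simp

theorem LL_up (n : ℕ) : (Bl SA n).ncard ≤ (2 * n + 1) ^ 2 * 7 ^ n := by
  have a : ∀ g : LL, ∃ m : ℤ, g ∈ Bl SA n → m ≤ 0 ∧ 0 ≤ m + n ∧ -(n : ℤ) ≤ g.k ∧ g.k ≤ n ∧
      ∀ x, x < m ∨ m + n ≤ x → g.f x = 0 := by
    intro g
    by_cases hg : g ∈ Bl SA n
    · simp only [hg, forall_const]
      refine Bl_ind (P := fun n (g : LL) => ∃ m : ℤ, m ≤ 0 ∧ 0 ≤ m + n ∧ -(n : ℤ) ≤ g.k ∧ g.k ≤ n ∧
        ∀ x, x < m ∨ m + n ≤ x → g.f x = 0) (fun n => ⟨0, by simp⟩) ?_ hg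
      rintro n g x hx ⟨m, h1, h2, h3, h4, h5⟩
      simp only [SA, Finset.mem_image, Finset.mem_univ, true_and, eq_inv_iff_mul_eq_one] at hx
      rcases hx with ⟨j, rfl⟩ | ⟨j, hx⟩
      · refine ⟨m, h1, by omega, by simp; omega, by simp; omega, fun x hx => ?_⟩
        simp [h5 (x - 1) (by omega), show 0 ≠ x by omega]
      · obtain rfl := eq_inv_of_mul_eq_one_right hx
        refine ⟨m - 1, by omega, by omega, by simp; omega, by simp; omega, fun x hx => ?_⟩
        simp [h5 (x + 1) (by omega), show 0 ≠ x + 1 by omega]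
    · exact ⟨0, fun h => absurd h hg⟩
  choose m hm using a
  refine (Set.ncard_le_ncard_of_injOn (t := ((Finset.Icc (-(n : ℤ)) n ×ˢ Finset.Icc (-(n : ℤ)) n) ×ˢ
    (Finset.univ : Finset (Fin n → ZMod 7)) : Finset _))
    (fun g => ((m g, g.k), fun i : Fin n => g.f (m g + i))) (fun g hg => ?_)
    fun g hg g' hg' e => ?_).trans ?_
  · have := hm g hg
    simp; omega
  · simp only [Prod.mk.injEq] at e
    obtain ⟨⟨e1, e2⟩, e3⟩ := e
    ext x
    · by_cases c : x < m g ∨ m g + n ≤ x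
      · rw [(hm g hg).2.2.2.2 x c, (hm g' hg').2.2.2.2 x (e1 ▸ c)]
      · have := congrFun e3 ⟨(x - m g).toNat, by omega⟩
        rwa [← e1, show m g + ((x - m g).toNat : ℕ) = x by omega] at this
    · exact e2
  · rw [Set.ncard_coe_finset]
    simp [show (n + 1 + n : ℤ).toNat = 2 * n + 1 by omega, sq]

noncomputable def ps (n : ℕ) (f : ℤ →₀ ZMod 7) : ZMod n →₀ ZMod 7 :=
  Finsupp.mapDomain (fun x : ℤ => (x : ZMod n)) f

theorem ps_sh (n : ℕ) (k : ℤ) (f : ℤ →₀ ZMod 7) (r : ZMod n) :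
    ps n (sh k f) r = ps n f (r - k) := by
  induction f using Finsupp.induction_linear with
  | zero => simp [ps, sh]
  | add f g hf hg =>
    rw [show sh k (f + g) = sh k f + sh k g by ext; simp]
    simp only [ps, Finsupp.mapDomain_add, Finsupp.add_apply] at *
    rw [hf, hg]
  | single x j => simp [ps, sh, Finsupp.single_apply, eq_sub_iff_add_eq]

theorem LL_lo (n : ℕ) (hn : 0 < n) : 7 ^ n ≤ n * (ConjClasses.mk '' Bl SA n).ncard := by
  classical
  have : NeZero n := ⟨hn.ne'⟩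
  let E : (ℕ → ZMod 7) → ℕ → LL := fun z m =>
    ⟨∑ i ∈ Finset.range m, Finsupp.single (i : ℤ) (z i), m⟩
  have e1 : ∀ z m, E z m ∈ Bl SA m := by
    intro z m
    induction m with
    | zero => exact Bl_one 0
    | succ m ih =>
      convert Bl_mul ih (Bl_gen (Or.inl (mem_SA (z m)))) using 1
      ext <;> simp [E, Finset.sum_range_succ, Finsupp.single_apply, eq_sub_iff_add_eq]
  have e2 : ∀ (z : ZMod n → ZMod 7) r, ps n (E (fun i => z i) n).f r = z r := by
    intro z r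
    simp only [ps, E, Finsupp.mapDomain_finsetSum, Finsupp.mapDomain_single, Finsupp.coe_finsetSum,
      Finset.sum_apply, Int.cast_natCast]
    rw [Finset.sum_eq_single r.val]
    · simp
    · intro b hb hr
      rw [Finsupp.single_eq_of_ne']
      rintro rfl
      exact hr (ZMod.val_cast_of_lt (Finset.mem_range.1 hb)).symm
    · simp [ZMod.val_lt]
  let Φ : (ZMod n → ZMod 7) → ConjClasses LL := fun z => ConjClasses.mk (E (fun i => z i) n)
  have := Finset.card_le_mul_card_image (f := Φ) Finset.univ n (by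
    intro c hc
    obtain ⟨z, -, rfl⟩ := Finset.mem_image.1 hc
    refine (Finset.card_le_card (t := Finset.univ.image fun j : ZMod n => fun r => z (r - j))
      fun y hy => ?_).trans (Finset.card_image_le.trans (by simp))
    obtain ⟨c, hc⟩ := isConj_iff.1
      (ConjClasses.mk_eq_mk_iff_isConj.1 (Finset.mem_filter.1 hy).2.symm)
    refine Finset.mem_image.2 ⟨c.k, by simp, funext fun r => ?_⟩
    have := congrArg (fun a : LL => ps n a.f r) (mul_inv_eq_iff_eq_mul.1 hc)
    simp only [mul_f, ps, Finsupp.mapDomain_add, Finsupp.add_apply] at this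
    have h1 := ps_sh n c.k (E (fun i => z i) n).f r
    have h2 := ps_sh n n c.f r
    have h3 := e2 y r
    rw [e2] at h1
    simp only [ps, Int.cast_natCast, ZMod.natCast_self, sub_zero] at h1 h2 h3
    rw [h1, h3, show (E (fun i => y i) n).k = n from rfl, h2] at this
    linear_combination this)
  simp only [Finset.card_univ, Fintype.card_fun, ZMod.card] at this
  refine this.trans (Nat.mul_le_mul_left _ ?_)
  rw [← Set.ncard_coe_finset]
  refine Set.ncard_le_ncard ?_ ((Bl_card SA n).1.image _)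
  intro c hc
  obtain ⟨z, -, rfl⟩ := Finset.mem_image.1 hc
  exact ⟨_, e1 _ _, rfl⟩

end Pool.Agent.H.MP_2bc940_al
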