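import Pool.Agent.H.MP_2bc940_al.H

set_option autoImplicit false

namespace Pool.Agent.H.MP_2bc940_al

open Filter Topology

open Classical in
noncomputable def J {G : Type} [Group G] (S : Finset G) : Finset (G × LL) :=
  S.image (MonoidHom.inl G LL) ∪ SA.image (MonoidHom.inr G LL)

theorem mem_J {G : Type} [Group G] {S : Finset G} {x : G × LL} :
    x ∈ J S ↔ (x.1 ∈ S ∧ x.2 = 1) ∨ (x.1 = 1 ∧ x.2 ∈ SA) := by
  obtain ⟨a, b⟩ := x
  simp [J, eq_comm, and_comm]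

theorem J_top {G : Type} [Group G] {S : Finset G} (h : Subgroup.closure (S : Set G) = ⊤) :
    Subgroup.closure (J S : Set (G × LL)) = ⊤ := by
  rw [eq_top_iff]
  rintro ⟨a, b⟩ -
  have h1 := Subgroup.mem_map_of_mem (MonoidHom.inl G LL) (h.ge (Subgroup.mem_top a))
  have h2 := Subgroup.mem_map_of_mem (MonoidHom.inr G LL) (SA_top.ge (Subgroup.mem_top b))
  rw [MonoidHom.map_closure] at h1 h2
  have k1 : MonoidHom.inl G LL '' S ⊆ J S := by
    rintro _ ⟨x, hx, rfl⟩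
    exact mem_J.2 (Or.inl ⟨hx, rfl⟩)
  have k2 : MonoidHom.inr G LL '' SA ⊆ J S := by
    rintro _ ⟨x, hx, rfl⟩
    exact mem_J.2 (Or.inr ⟨rfl, hx⟩)
  have := Subgroup.mul_mem _ (Subgroup.closure_mono k1 h1) (Subgroup.closure_mono k2 h2)
  rwa [MonoidHom.inl_apply, MonoidHom.inr_apply, Prod.mk_mul_mk, mul_one, one_mul] at this

theorem J_up (n : ℕ) : (Bl (J S0) n).ncard ≤ (n + 1) * ((2 * n + 1) ^ 2 * 7 ^ n) := by
  classical
  have a : Bl (J S0) n ⊆ ((Finset.range (n + 1)).biUnion fun i =>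
      (Bl_card S0 i).1.toFinset ×ˢ (Bl_card SA (n - i)).1.toFinset : Finset _) := by
    intro g hg
    have : ∃ i j, i + j = n ∧ g.1 ∈ Bl S0 i ∧ g.2 ∈ Bl SA j := by
      refine Bl_ind (P := fun n (g : G0 × LL) => ∃ i j, i + j = n ∧ g.1 ∈ Bl S0 i ∧ g.2 ∈ Bl SA j)
        (fun n => ⟨0, n, by simp, Bl_one _, Bl_one _⟩) ?_ hg
      rintro n g x hx ⟨i, j, rfl, h1, h2⟩
      simp only [mem_J, Prod.fst_inv, Prod.snd_inv, inv_eq_one] at hx
      rcases hx with (hx | hx) | (hx | hx)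
      · exact ⟨1 + i, j, by omega, Bl_mul (Bl_gen (Or.inl hx.1)) h1, by simpa [hx.2]⟩
      · exact ⟨i, 1 + j, by omega, by simpa [hx.1], Bl_mul (Bl_gen (Or.inl hx.2)) h2⟩
      · exact ⟨1 + i, j, by omega, Bl_mul (Bl_gen (Or.inr hx.1)) h1, by simpa [hx.2]⟩
      · exact ⟨i, 1 + j, by omega, by simpa [hx.1], Bl_mul (Bl_gen (Or.inr hx.2)) h2⟩
    obtain ⟨i, j, rfl, h1, h2⟩ := this
    simpa using ⟨i, h1, by omega, by simpa using h2⟩
  refine (Set.ncard_le_ncard a).trans ?_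
  rw [Set.ncard_coe_finset]
  refine (Finset.card_biUnion_le_card_mul _ _ _ fun i hi => ?_).trans (by rw [Finset.card_range])
  rw [Finset.card_product, ← Set.ncard_eq_toFinset_card _ (Bl_card _ _).1,
    ← Set.ncard_eq_toFinset_card _ (Bl_card _ _).1]
  have h3 : S0.card ≤ 3 := Finset.card_le_three
  have hi := Finset.mem_range.1 hi
  calc _ ≤ 7 ^ i * ((2 * n + 1) ^ 2 * 7 ^ (n - i)) :=
        Nat.mul_le_mul ((Bl_card S0 i).2.trans (Nat.pow_le_pow_left (by omega) _))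
          ((LL_up _).trans (Nat.mul_le_mul_right _ (Nat.pow_le_pow_left (by omega) _)))
    _ = _ := by rw [mul_left_comm, ← pow_add, Nat.add_sub_cancel' (by omega)]

theorem J_lo (n : ℕ) (hn : 0 < n) : 7 ^ n ≤ n * (ConjClasses.mk '' Bl (J S0) n).ncard := by
  refine (LL_lo n hn).trans (Nat.mul_le_mul_left _ ?_)
  refine le_trans (Set.ncard_le_ncard ?_ (((Bl_card _ n).1.image _).image _))
    (Set.ncard_image_le (f := ConjClasses.map (MonoidHom.snd G0 LL)) ((Bl_card _ n).1.image _))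
  rintro _ ⟨a, ha, rfl⟩
  exact ⟨_, ⟨_, Bl_map (MonoidHom.inr G0 LL) (fun x hx => Or.inl (by simp [mem_J, hx])) ha, rfl⟩,
    rfl⟩

theorem J_conj (T : Finset G0) (n : ℕ) : (ConjClasses.mk '' Bl (J T) n).ncard ≤
    (ConjClasses.mk '' Bl T n).ncard * (Bl SA n).ncard := by
  have f := ((Bl_card T n).1.image ConjClasses.mk).prod (Bl_card SA n).1
  rw [← Set.ncard_prod]
  refine le_trans (Set.ncard_le_ncard ?_ (f.image _)) (Set.ncard_image_le
    (f := fun p : ConjClasses G0 × LL => ConjClasses.mk (Quotient.out p.1, p.2)) f)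
  rintro _ ⟨g, hg, rfl⟩
  refine ⟨(ConjClasses.mk g.1, g.2), ⟨⟨_, Bl_map (MonoidHom.fst G0 LL)
    (fun x hx => (mem_J.1 hx).imp And.left And.left) hg, rfl⟩, Bl_map (MonoidHom.snd G0 LL)
    (fun x hx => (mem_J.1 hx).symm.imp And.right And.right) hg⟩, ?_⟩
  obtain ⟨c, hc⟩ := isConj_iff.1 (ConjClasses.mk_eq_mk_iff_isConj.1
    (Quotient.out_eq (ConjClasses.mk g.1)))
  exact ConjClasses.mk_eq_mk_iff_isConj.2 (isConj_iff.2 ⟨(c, 1), Prod.ext hc (by simp)⟩)

theorem J_ball (T : Finset G0) (n : ℕ) : (Bl T n).ncard ≤ (Bl (J T) n).ncard :=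
  Set.ncard_le_ncard_of_injOn (MonoidHom.inl G0 LL)
    (fun _ ha => Bl_map _ (fun x hx => Or.inl (by simp [mem_J, hx])) ha)
    (fun _ _ _ _ e => congrArg Prod.fst e) (Bl_card _ n).1

theorem root_pow {ρ : ℝ} (h : 0 ≤ ρ) {n : ℕ} (hn : 0 < n) : (ρ ^ n) ^ ((1 : ℝ) / n) = ρ := by
  rw [one_div, Real.pow_rpow_inv_natCast h hn.ne']

theorem root_le {x ρ : ℝ} {n : ℕ} (hn : 0 < n) (h0 : 0 ≤ x) (h1 : 0 ≤ ρ) (h : x ≤ ρ ^ n) :
    x ^ ((1 : ℝ) / n) ≤ ρ :=
  (Real.rpow_le_rpow h0 h (by positivity)).trans (root_pow h1 hn).le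

theorem le_root {x ρ : ℝ} {n : ℕ} (hn : 0 < n) (h1 : 0 ≤ ρ) (h : ρ ^ n ≤ x) :
    ρ ≤ x ^ ((1 : ℝ) / n) :=
  (root_pow h1 hn).ge.trans (Real.rpow_le_rpow (by positivity) h (by positivity))

theorem poly (K : ℝ) (k : ℕ) {q ρ : ℝ} (hq : 0 < q) (h : q < ρ) :
    ∀ᶠ n : ℕ in atTop, K * n ^ k * q ^ n ≤ ρ ^ n := by
  have t := (tendsto_pow_const_div_const_pow_of_one_lt k ((one_lt_div hq).2 h)).const_mul K
  rw [mul_zero] at t
  filter_upwards [t.eventually (ge_mem_nhds one_pos)] with n hn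
  have : 0 < ρ := hq.trans h
  rwa [div_pow, div_div_eq_mul_div, ← mul_div_assoc, div_le_one (by positivity), ← mul_assoc] at hn

theorem lim7 (x : ℕ → ℕ) (h1 : ∀ n, 0 < n → 7 ^ n ≤ n * x n)
    (h2 : ∀ n, x n ≤ (n + 1) * ((2 * n + 1) ^ 2 * 7 ^ n)) :
    limsup (fun n : ℕ => (x n : ℝ) ^ ((1 : ℝ) / n)) atTop = 7 := by
  refine Tendsto.limsup_eq (tendsto_order.2 ⟨fun a ha => ?_, fun a ha => ?_⟩)
  · obtain ⟨b, b1, b2⟩ := exists_between (max_lt ha (by norm_num : (0 : ℝ) < 7))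
    have b0 : 0 < b := (le_max_right _ _).trans_lt b1
    filter_upwards [poly 1 1 b0 b2, eventually_gt_atTop 0] with n hn h0
    refine ((le_max_left _ _).trans_lt b1).trans_le (le_root h0 b0.le ?_)
    have : (7 : ℝ) ^ n ≤ n * x n := by exact_mod_cast h1 n h0
    rw [one_mul, pow_one] at hn
    exact le_of_mul_le_mul_left (hn.trans this) (by positivity)
  · obtain ⟨b, b1, b2⟩ := exists_between ha
    filter_upwards [poly 18 3 (by norm_num) b1, eventually_gt_atTop 0] with n hn h0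
    refine (root_le h0 (by positivity) (by linarith) (le_trans ?_ hn)).trans_lt b2
    have : x n ≤ 18 * n ^ 3 * 7 ^ n := (h2 n).trans (by
      rw [← mul_assoc]
      refine Nat.mul_le_mul_right _ ?_
      calc _ ≤ (2 * n) * (3 * n) ^ 2 :=
            Nat.mul_le_mul (by omega) (Nat.pow_le_pow_left (by omega) _)
        _ = _ := by ring)
    exact_mod_cast this

theorem eq_case : limsup (fun n : ℕ => ((ConjClasses.mk '' Bl (J S0) n).ncard : ℝ) ^ ((1 : ℝ) / n))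
    atTop = limsup (fun n : ℕ => ((Bl (J S0) n).ncard : ℝ) ^ ((1 : ℝ) / n)) atTop := by
  have k := fun n => Set.ncard_image_le (f := ConjClasses.mk) (Bl_card (J S0) n).1
  rw [lim7 _ J_lo fun n => (k n).trans (J_up n),
    lim7 _ (fun n hn => (J_lo n hn).trans (Nat.mul_le_mul_left _ (k n))) J_up]

theorem ne_case : ∃ T : Finset (G0 × LL), Subgroup.closure (T : Set (G0 × LL)) = ⊤ ∧
    limsup (fun n : ℕ => ((ConjClasses.mk '' Bl T n).ncard : ℝ) ^ ((1 : ℝ) / n))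
    atTop < limsup (fun n : ℕ => ((Bl T n).ncard : ℝ) ^ ((1 : ℝ) / n)) atTop := by
  obtain ⟨C, hC, h⟩ : ∃ C : ℕ, 0 < C ∧ ∀ ρ : ℕ, ∃ T : Finset G0, S0 ⊆ T ∧ (∃ K : ℕ, ∀ n,
      (ConjClasses.mk '' Bl T n).ncard ≤ K * C ^ n) ∧ ∃ᶠ n in atTop, ρ ^ n ≤ (Bl T n).ncard :=
    ⟨_, by positivity, G0_main⟩
  obtain ⟨T, h1, ⟨K, h2⟩, h3⟩ := h (C * 7 + 2)
  refine ⟨J T, J_top (eq_top_iff.2 (S0_top.ge.trans (Subgroup.closure_mono h1))),
    lt_of_le_of_lt (b := (C * 7 + 1 : ℝ)) ?_ (lt_of_lt_of_le (b := (C * 7 + 2 : ℝ)) (by linarith) ?_)⟩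
  · refine limsup_le_of_le (isCoboundedUnder_le_of_le atTop (x := 0) fun n => by positivity) ?_
    filter_upwards [poly (9 * K) 2 (q := C * 7) (ρ := C * 7 + 1) (by positivity) (by linarith),
      eventually_gt_atTop 0] with n hn h0
    refine root_le h0 (by positivity) (by positivity) (le_trans ?_ hn)
    have : (ConjClasses.mk '' Bl (J T) n).ncard ≤ 9 * K * n ^ 2 * (C * 7) ^ n :=
      calc _ ≤ K * C ^ n * ((3 * n) ^ 2 * 7 ^ n) := (J_conj T n).trans (Nat.mul_le_mul (h2 n)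
            ((LL_up n).trans (Nat.mul_le_mul_right _ (Nat.pow_le_pow_left (by omega) _))))
        _ = _ := by ring
    exact_mod_cast this
  · refine le_limsup_of_frequently_le ((h3.and_eventually (eventually_gt_atTop 0)).mono
      fun n hn => le_root hn.2 (by positivity) ?_) (isBoundedUnder_of_eventually_le
        (a := 2 * (J T).card + 1) ?_)
    · exact_mod_cast hn.1.trans (J_ball T n)
    · filter_upwards [eventually_gt_atTop 0] with n h0
      exact root_le h0 (by positivity) (by positivity) (by exact_mod_cast (Bl_card (J T) n).2)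

end Pool.Agent.H.MP_2bc940_al
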